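import Pool.Agent.FrMul.Thr
import Pool.Agent.FrNar.Lvl
import Pool.Agent.FrNar.LvlB
import Pool.Agent.FrNar.AltA
import Pool.Agent.FrNar.NarC
import Pool.Agent.FrNar.TorB

/-! The alternative for the classes of frozen positive, frozen narrow instances with few roots on the
circles which contain a multiple root. -/

set_option autoImplicit false

namespace Pool.Agent.UltPos

open Pool.Agent.PT Pool.Agent.AllR Pool.Agent.DD7719.M Pool.Agent.DD7719 Finset Pool.Agent.FrUP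
open Pool.Agent.FrNar

section
variable (I : Inst) (L : ℕ) (hkL : I.k ≤ L)
    (hb : ∀ i, (I.aNum i).natAbs ≤ 2 ^ L ∧ I.aDen i ≤ 2 ^ L)
    (hbu : ∀ i, (I.uNum i).natAbs ≤ 2 ^ L ∧ I.uDen i ≤ 2 ^ L) (aR uR : ℕ → ℝ)
    (ha : ∀ t (h : t < I.k), aR t = (I.a ⟨t, h⟩ : ℝ)) (hu : ∀ t (h : t < I.k), uR t = (I.u ⟨t, h⟩ : ℝ))
    (v : ℕ → ℚ) (hv : I.IsSeq v)

include hkL hb hbu ha hu hv in
/-- **The alternative of a class**: the proof of `Inst.class_alt` (`FrNar/AltE.lean`) with `ThrM`. -/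
theorem Inst.class_altM (s E : ℕ) (hE : ThrM s E) (hfr : I.FrozenPositive) (hnar : I.FrozenNarrow)
    (hs : I.AtMostWithMultiple s) {l c : ℕ → ℂ} {ex : ℕ → ℕ} (hrd : RootData I.k aR uR l c ex)
    {n0 : ℕ} {A H : Fin I.k → Fin I.k → ℤ} {D : ℤ} {s' : ℕ} {w : Fin I.k → Fin I.k → ℝ}
    {τ y : Fin I.k → ℝ} (hT : TorOK I.k L (fun i => l i) n0 A H D s' w τ y) (j : ℕ) (hj : I.k ≤ j)
    (hj' : j < I.k + n0) :
    ∃ i0 : Fin I.k, IsLvl (fun i : Fin I.k => l i) (fun i => c i) (fun i => ex i) n0 j i0 ∧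
      ((∀ x : ℝ, 2 ^ ((2 + L) ^ E) < x → ∀ z : Fin I.k → ℂ, (∀ t, ‖z t‖ = 1) →
          0 < (LevX (fun i : Fin I.k => l i) (fun i => c i) (fun i => ex i) A s' j ‖l i0‖ x z).re) ∨
        ∃ i i' : Fin I.k, ‖l i‖ = ‖l i'‖ ∧ (∀ n : ℕ, 0 < n → l i ^ n ≠ l i' ^ n) ∧
          ∀ x : ℝ, 2 ^ ((2 + L) ^ E) < x → ∀ z z' : Fin I.k → ℂ, (∀ t, ‖z t‖ = 1) →
            (LevX (fun i : Fin I.k => l i) (fun i => c i) (fun i => ex i) A s' j ‖l i0‖ x z).re = 0 →
            (∀ t, ‖z' t‖ = 1) →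
            (LevX (fun i : Fin I.k => l i) (fun i => c i) (fun i => ex i) A s' j ‖l i0‖ x z').re = 0 →
            Wt A s' z i / Wt A s' z i' ≠ Wt A s' z' i / Wt A s' z' i' →
            1 ≤ x ^ (2 ^ ((2 + L) ^ E)) *
              ‖Wt A s' z i / Wt A s' z i' - Wt A s' z' i / Wt A s' z' i'‖) := by
  classical
  have hall := I.all' aR uR ha hu v hv hrd
  have hexk : ∀ i : Fin I.k, ex i < I.k := fun i => hrd.1 i i.2
  have hexj : ∀ i : Fin I.k, ex i ≤ j := fun i => (hexk i).le.trans hj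
  have hg := I.goodD L hkL hb aR uR ha hu v hv hrd
  obtain ⟨τ1, hτ1⟩ := (I.frozenPositive_iff v hv _ _ _ hexk hall).1 hfr
  obtain ⟨i0, hi0⟩ := exists_lvl (fun i : Fin I.k => l i) (fun i => c i) (fun i => ex i) n0 j
    hT.pos hexj τ1 hτ1
  refine ⟨i0, hi0, ?_⟩
  have hρ : 0 < ‖l i0‖ := norm_pos_iff.mpr hi0.ne
  obtain ⟨hB, hBx⟩ := hT.base2 I.kpos (fun i => c i) (fun i => ex i) hexk hg.hdc j hj hj' ‖l i0‖
    hρ.le hi0.van
  have hM1 : 1 ≤ 2 ^ pmh L := Nat.one_le_two_pow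
  have hM2 : 2 ^ pmh L ≤ 2 ^ pbm L := (two_pow_lt_pbm L).le
  have hNb : 2 ^ (1 + 2 * L * L + (pdl L + 3) * L) ≤ 2 ^ pbn L :=
    Nat.pow_le_pow_right (by norm_num) (Nat.le_succ _)
  have hroot : ∀ x : ℝ, 2 ^ ((2 + L) ^ E) < x → (gP (fun i : Fin I.k => l i) (fun i => c i)
      (fun i => ex i) n0 j (l i0 ^ n0)).eval (x : ℂ) ≠ 0 := fun x hx h =>
    hi0.top ((hE I L hkL hb hbu aR uR ha hu v hv hfr hs l c ex hrd n0 j hT.pos hj x hx).1 i0 h)
  have hthr := fun (x : ℝ) (hx : 2 ^ ((2 + L) ^ E) < x) =>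
    (hE I L hkL hb hbu aR uR ha hu v hv hfr hs l c ex hrd n0 j hT.pos hj x hx).2 ‖l i0‖ hρ
      (2 ^ pmh L) _ A H D s' w τ (I.k - 1) hM1 hM2 hNb hB
  by_cases hA : ∀ X : ℝ, ∃ t : ℝ, X < t ∧ ∀ z : Fin I.k → ℂ, (∀ t, ‖z t‖ = 1) →
      (LevX (fun i : Fin I.k => l i) (fun i => c i) (fun i => ex i) A s' j ‖l i0‖ t z).re ≠ 0
  · left
    intro x hx z hz
    exact lt_of_le_of_ne ((hthr x hx).1 hi0.van z hz)
      (Ne.symm (((hthr x hx).2 y hT.rep).1 hA z hz))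
  · right
    push Not at hA
    obtain ⟨X0, hX0⟩ := hA
    obtain ⟨τ2, hτ2⟩ := (I.frozenNarrow_fs aR uR ha hu v hv hrd).1 hnar
    have key : ∀ X : ℝ, ∃ x : ℝ, X < x ∧ ∃ p : Fin I.k × Fin I.k,
        ‖l p.1‖ = ‖l p.2‖ ∧ (∀ n : ℕ, 0 < n → l p.1 ^ n ≠ l p.2 ^ n) ∧
        ((fun z : Fin I.k → ℂ => Wt A s' z p.1 / Wt A s' z p.2) ''
          {z | (∀ t, ‖z t‖ = 1) ∧ (LevX (fun i : Fin I.k => l i) (fun i => c i)
            (fun i => ex i) A s' j ‖l i0‖ x z).re = 0}).Finite := by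
      intro X
      obtain ⟨q, hq⟩ := exists_rat_gt (max (max X X0)
        (max ((2 : ℝ) ^ ((2 + L) ^ E)) (max (τ1 : ℝ) (τ2 : ℝ))))
      have hqX : X < (q : ℝ) := lt_of_le_of_lt ((le_max_left _ _).trans (le_max_left _ _)) hq
      have hqX0 : X0 < (q : ℝ) := lt_of_le_of_lt ((le_max_right _ _).trans (le_max_left _ _)) hq
      have hqT : (2 : ℝ) ^ ((2 + L) ^ E) < (q : ℝ) :=
        lt_of_le_of_lt ((le_max_left _ _).trans (le_max_right _ _)) hq
      have hq1 : τ1 ≤ q := by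
        have : (τ1 : ℝ) < (q : ℝ) := lt_of_le_of_lt
          (((le_max_left _ _).trans (le_max_right _ _)).trans (le_max_right _ _)) hq
        exact_mod_cast this.le
      have hq2 : τ2 ≤ q := by
        have : (τ2 : ℝ) < (q : ℝ) := lt_of_le_of_lt
          (((le_max_right _ _).trans (le_max_right _ _)).trans (le_max_right _ _)) hq
        exact_mod_cast this.le
      have hlev : ∀ z : Fin I.k → ℂ, LevF (fun i : Fin I.k => l i)
          (fc (fun i : Fin I.k => l i) (fun i => c i) (fun i => ex i) (q : ℝ)) (fun _ => 0) A s' j 0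
          ‖l i0‖ z = LevX (fun i : Fin I.k => l i) (fun i => c i) (fun i => ex i) A s' j ‖l i0‖
          (q : ℝ) z := fun z => levF_frz _ _ _ A s' j hexj _ hρ _ z
      have hgf := goodD_frz _ _ _ _ _ _ _ _
        (hg.mono (M' := 2 ^ pmh L) hM1 hM2 (by positivity)) (q : ℝ)
      obtain ⟨zn, hzn, hzn2⟩ := lev_ne (fun i : Fin I.k => l i) (fun i => c i) (fun i => ex i)
        _ _ _ _ _ hg n0 j hT.pos hj A s' y hT.rep i0 hi0 (q : ℝ) (hroot q hqT)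
      rcases case_narN (fun i : Fin I.k => l i)
        (fc (fun i : Fin I.k => l i) (fun i => c i) (fun i => ex i) (q : ℝ)) (fun _ => 0)
        _ _ _ _ _ _ hgf (hτ1 q hq1) n0 j A H D s' w τ ‖l i0‖ hρ (hBx q) zn hzn
        (by rw [hlev]; exact hzn2)
        (fun z hz => by rw [hlev]; exact (hthr q hqT).1 hi0.van z hz) (hτ2 q hq2) with
        h | ⟨i, i', h1, h2, h3⟩
      · exfalso
        obtain ⟨z, hz, hz0⟩ := hX0 q hqX0
        have h4 := h z hz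
        rw [hlev, hz0] at h4
        exact lt_irrefl _ h4
      · refine ⟨q, hqX, (i, i'), h1, h2, ?_⟩
        simp only [hlev] at h3
        exact h3
    obtain ⟨⟨i, i'⟩, hp⟩ := exists_freq _ key
    obtain ⟨_, _, hn, ht, _⟩ := hp 0
    have hn' : ‖l i‖ = ‖l i'‖ := hn
    have ht' : ∀ n : ℕ, 0 < n → l i ^ n ≠ l i' ^ n := ht
    have hli : l i ≠ 0 := by
      intro h0
      rw [h0, norm_zero] at hn'
      have h1 : l i' = 0 := norm_eq_zero.mp hn'.symm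
      exact ht' 1 one_pos (by rw [h0, h1])
    have hli' : l i' ≠ 0 := by
      intro h0
      rw [h0, norm_zero] at hn'
      exact hli (norm_eq_zero.mp hn')
    refine ⟨i, i', hn', ht', fun x hx z z' hz h0 hz' h0' hne => ?_⟩
    exact ((hthr x hx).2 y hT.rep).2 i i' hli hli'
      (fun X => by
        obtain ⟨t, ht1, _, _, h⟩ := hp X
        exact ⟨t, ht1, h⟩) z z' hz h0 hz' h0' hne

end

end Pool.Agent.UltPos
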