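import Pool.Agent.MX.Defs

/-! The number of roots on the circles which contain a multiple root. -/

set_option autoImplicit false

namespace Pool.Agent.UltPos

/-- Each circle around `0` which contains a multiple characteristic root contains at most `s` (distinct)
characteristic roots. -/
def Inst.AtMostWithMultiple (I : Inst) (s : ℕ) : Prop :=
  ∀ z ∈ I.rootSet, Polynomial.aeval z (Polynomial.derivative I.charPoly) = 0 →
    Set.encard {z' : ℂ | z' ∈ I.rootSet ∧ ‖z'‖ = ‖z‖} ≤ s

theorem Inst.AtMostPerCircle.withMultiple {I : Inst} {s : ℕ} (h : I.AtMostPerCircle s) :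
    I.AtMostWithMultiple s := fun z _ _ => h ‖z‖

end Pool.Agent.UltPos
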