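import Pool.Agent.FrMul.MainM
import Pool.Agent.FrNar.ULang

/-! Positivity of frozen positive, frozen narrow recurrences with at most `s` roots on each circle which
contains a multiple root. -/

set_option autoImplicit false

namespace Pool.Agent.UltPos

open Pool.Agent.PT Pool.Agent.AllR Pool.Agent.DD7719.M Pool.Agent.DD7719 Finset Pool.Agent.FrUP

/-- **Positivity of frozen positive, frozen narrow recurrences with few roots on the circles which contain
a multiple root.** -/
theorem inForallR_frozen_narrowM (s : ℕ) :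
    InForallR {w : List ISym | ∃ I : Inst, w = I.enc ∧ I.Positive ∧ I.FrozenPositive ∧
      I.FrozenNarrow ∧ I.AtMostWithMultiple s} := by
  obtain ⟨kk, fR, hkk, hfR, hk, hf⟩ := exists_coefR
  obtain ⟨c, hc⟩ := exists_frozenFromM s
  have hiff : ∀ I : Inst, I.AtMostWithMultiple s ↔
      ¬ ManyWithMultiple (s + 1) (kk I.enc) (fR I.enc) := by
    intro I
    rw [hk I]
    exact I.withMultiple_iff s _ (hf I)
  have h := inForallR_fromE c (fun x => ManyWithMultiple (s + 1) (kk x) (fR x))
    (re_manyWithMultiple (s + 1) kk fR hkk hfR)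
  have hset : {w : List ISym | ∃ I : Inst, w = I.enc ∧ I.Positive ∧ I.FrozenPositive ∧
      I.FrozenNarrow ∧ I.AtMostWithMultiple s} = {w : List ISym | ∃ I : Inst, w = I.enc ∧
      I.Positive ∧ I.FrozenFrom (2 ^ (w.length ^ c + c)) (2 ^ (w.length ^ c + c)) ∧
      ¬ ManyWithMultiple (s + 1) (kk w) (fR w)} := by
    ext w
    constructor
    · rintro ⟨I, rfl, hp, hf, hn, hs⟩
      exact ⟨I, rfl, hp, hc I hf hn hs, (hiff I).1 hs⟩
    · rintro ⟨I, rfl, hp, hf, hs⟩
      exact ⟨I, rfl, hp, hf.frozenPositive, hf.frozenNarrow (by positivity), (hiff I).2 hs⟩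
  rw [hset]
  exact h

end Pool.Agent.UltPos
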