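import Pool.Agent.FrMul.AltM
import Pool.Agent.FrNar.LimP
import Pool.Agent.DD7719.NNar

/-! Frozen positive, frozen narrow instances with at most `s` roots on each circle with a multiple root:
the clause of a class. -/

set_option autoImplicit false

namespace Pool.Agent.UltPos

open Filter Topology
open Pool.Agent.PT Pool.Agent.AllR Pool.Agent.DD7719.M Pool.Agent.DD7719 Finset Pool.Agent.FrUP
open Pool.Agent.FrNar

section
variable (I : Inst) (L : ℕ) (hkL : I.k ≤ L)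
    (hb : ∀ i, (I.aNum i).natAbs ≤ 2 ^ L ∧ I.aDen i ≤ 2 ^ L)
    (hbu : ∀ i, (I.uNum i).natAbs ≤ 2 ^ L ∧ I.uDen i ≤ 2 ^ L) (aR uR : ℕ → ℝ)
    (ha : ∀ t (h : t < I.k), aR t = (I.a ⟨t, h⟩ : ℝ)) (hu : ∀ t (h : t < I.k), uR t = (I.u ⟨t, h⟩ : ℝ))
    (v : ℕ → ℚ) (hv : I.IsSeq v)

include hkL hb hbu ha hu hv in
/-- **The clause of a class**: the proof of `Inst.class_from` (`FrNar/FromE.lean`). -/
theorem Inst.class_fromM (s E : ℕ) (hE : ThrM s E) (hfr : I.FrozenPositive) (hnar : I.FrozenNarrow)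
    (hs : I.AtMostWithMultiple s) {l c : ℕ → ℂ} {ex : ℕ → ℕ} (hrd : RootData I.k aR uR l c ex)
    {n0 : ℕ} {A H : Fin I.k → Fin I.k → ℤ} {D : ℤ} {s' : ℕ} {w : Fin I.k → Fin I.k → ℝ}
    {τ y : Fin I.k → ℝ} (hT : TorOK I.k L (fun i => l i) n0 A H D s' w τ y) (J : ℕ) (hJ : J < n0) :
    ∃ ρ : ℝ, 0 < ρ ∧
      (∀ x : ℝ, 2 ^ ((2 + L) ^ E) < x → ∃ B : ℝ, ∀ m : ℕ, |(fs (fun i : Fin I.k => l i)
        (fun i => c i) (fun i => ex i) x (n0 * m + J)).re| ≤ B * ρ ^ m) ∧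
      ((∀ x : ℝ, 2 ^ ((2 + L) ^ E) < x → 0 < liminf (fun m : ℕ => (fs (fun i : Fin I.k => l i)
          (fun i => c i) (fun i => ex i) x (n0 * m + J)).re / ρ ^ m) atTop) ∨
        ∃ i i' : Fin I.k, ‖l i‖ = ‖l i'‖ ∧ (∀ n : ℕ, 0 < n → l i ^ n ≠ l i' ^ n) ∧
          ∀ x : ℝ, 2 ^ ((2 + L) ^ E) < x →
            ∀ ζ ∈ contactSet (fun n => (fs (fun i : Fin I.k => l i) (fun i => c i)
              (fun i => ex i) x n).re) n0 J ρ (l i / l i'),
            ∀ ζ' ∈ contactSet (fun n => (fs (fun i : Fin I.k => l i) (fun i => c i)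
              (fun i => ex i) x n).re) n0 J ρ (l i / l i'),
            ζ ≠ ζ' → 1 ≤ x ^ (2 ^ ((2 + L) ^ E)) * ‖ζ - ζ'‖) := by
  classical
  obtain ⟨q, hq1, hq2⟩ := exists_cls_rep I.k n0 J hT.pos hJ
  obtain ⟨i0, hlvl, halt⟩ := I.class_altM L hkL hb hbu aR uR ha hu v hv s E hE hfr hnar hs hrd hT
    (J + n0 * q) hq1 hq2
  have hρ : 0 < ‖l i0‖ := norm_pos_iff.mpr hlvl.ne
  have hg := I.goodD L hkL hb aR uR ha hu v hv hrd
  have hexj : ∀ i : Fin I.k, ex i ≤ J + n0 * q := fun i => ((hg.hex i).le.trans hq1)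
  have hvx : ∀ (x : ℝ) (n : ℕ), ∑ i : Fin I.k, fc (fun i : Fin I.k => l i) (fun i => c i)
      (fun i => ex i) x i * (n.choose ((fun _ : Fin I.k => 0) i) : ℂ) *
        l i ^ (n - (fun _ : Fin I.k => 0) i) =
      (((fs (fun i : Fin I.k => l i) (fun i => c i) (fun i => ex i) x n).re : ℝ) : ℂ) := fun x =>
    (goodD_frz _ _ _ _ _ _ _ _ hg x).hv
  have hvan := fun x : ℝ => van_frz (fun i : Fin I.k => l i) (fun i => c i) (fun i => ex i) n0
    (J + n0 * q) hT.pos hexj ‖l i0‖ hρ.le hlvl.van x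
  refine ⟨‖l i0‖ ^ n0, by positivity, fun x _ => ?_, ?_⟩
  · exact cls_bound (fun i : Fin I.k => l i) (fc (fun i : Fin I.k => l i) (fun i => c i)
      (fun i => ex i) x) (fun _ => 0) n0 (J + n0 * q) hT.pos (fun _ => Nat.zero_le _)
      (fun n => (fs (fun i : Fin I.k => l i) (fun i => c i) (fun i => ex i) x n).re) (hvx x)
      ‖l i0‖ hρ (hvan x) J q rfl
  · rcases halt with hpos | ⟨i, i', hii, hne, hsep⟩
    · left
      intro x hx
      refine cls_liminf_pos (fun i : Fin I.k => l i) (fc (fun i : Fin I.k => l i) (fun i => c i)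
        (fun i => ex i) x) (fun _ => 0) n0 (J + n0 * q) hT.pos (fun _ => Nat.zero_le _)
        (fun n => (fs (fun i : Fin I.k => l i) (fun i => c i) (fun i => ex i) x n).re) (hvx x)
        ‖l i0‖ hρ (hvan x) A s' y hT.rep (fun z hz => ?_) J q rfl
      rw [levF_frz _ _ _ A s' _ hexj _ hρ x z]
      exact hpos x hx z hz
    · right
      have hi' : l i' ≠ 0 := by
        intro h0
        rw [h0, norm_zero, norm_eq_zero] at hii
        exact hne 1 one_pos (by rw [hii, h0])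
      refine ⟨i, i', hii, hne, fun x hx ζ hζ ζ' hζ' hζζ => ?_⟩
      have hsub := contact_subset (fun i : Fin I.k => l i) (fc (fun i : Fin I.k => l i)
        (fun i => c i) (fun i => ex i) x) (fun _ => 0) n0 (J + n0 * q) hT.pos
        (fun _ => Nat.zero_le _)
        (fun n => (fs (fun i : Fin I.k => l i) (fun i => c i) (fun i => ex i) x n).re) (hvx x)
        ‖l i0‖ hρ (hvan x) A s' y hT.rep i i' hii hi' J q rfl
      obtain ⟨z, ⟨hz1, hz2⟩, rfl⟩ := hsub hζ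
      obtain ⟨z', ⟨hz1', hz2'⟩, rfl⟩ := hsub hζ'
      rw [levF_frz _ _ _ A s' _ hexj _ hρ x z] at hz2
      rw [levF_frz _ _ _ A s' _ hexj _ hρ x z'] at hz2'
      have h1 := hsep x hx z z' hz1 hz2 hz1' hz2' (fun h => hζζ (by simp only [h]))
      have h2 : ‖l i / l i'‖ = 1 := by
        rw [norm_div, hii, div_self (norm_ne_zero_iff.mpr hi')]
      have h3 : ‖(l i / l i') ^ (J + n0 * q) * (Wt A s' z i / Wt A s' z i') -
          (l i / l i') ^ (J + n0 * q) * (Wt A s' z' i / Wt A s' z' i')‖ =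
          ‖Wt A s' z i / Wt A s' z i' - Wt A s' z' i / Wt A s' z' i'‖ := by
        rw [← mul_sub, norm_mul, norm_pow, h2, one_pow, one_mul]
      simp only [h3]
      exact h1

end

end Pool.Agent.UltPos
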