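import Pool.Agent.FrMul.Defs
import Pool.Agent.MX.Iff
import Pool.Agent.FrNar.ThrN

/-! The condition on the circles which contain a multiple root. -/

set_option autoImplicit false

namespace Pool.Agent.UltPos

open Pool.Agent.PT Pool.Agent.AllR Pool.Agent.DD7719.M Pool.Agent.DD7719 Finset

/-- `m` characteristic roots on a circle with a multiple root (`z m`) -/
def ManyWithMultiple (m k : ℕ) (a : ℕ → ℝ) : Prop := ∃ z : ℕ → ℂ,
  (∀ i, i < m + 1 → z i ^ k = ∑ t ∈ range k, (a t : ℂ) * z i ^ (k - 1 - t)) ∧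
  (k : ℂ) * z m ^ (k - 1) =
    ∑ t ∈ range k, (a t : ℂ) * ((k - 1 - t : ℕ) : ℂ) * z m ^ (k - 1 - t - 1) ∧
  (∀ i, i < m + 1 → ‖z i‖ = ‖z m‖) ∧ ∀ i, i < m → ∀ i', i' < m → i < i' → z i ≠ z i'

theorem re_manyWithMultiple {Γ : Type} (m : ℕ) (kk : List Γ → ℕ) (aR : List Γ → ℕ → ℝ)
    (hk : UF (fun x _ => kk x)) (ha : RF (fun x e _ => aR x (e 0))) :
    RE (fun x _ _ => ManyWithMultiple m (kk x) (aR x)) := by
  have h1 : RE (fun x _ _ => ∃ α : ℕ → ℝ,
      (∀ i, i < m + 1 →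
        rl α i ^ kk x = ∑ t ∈ range (kk x), (aR x t : ℂ) * rl α i ^ (kk x - 1 - t)) ∧
      ((kk x : ℂ) * rl α m ^ (kk x - 1) =
        ∑ t ∈ range (kk x), (aR x t : ℂ) * ((kk x - 1 - t : ℕ) : ℂ) * rl α m ^ (kk x - 1 - t - 1)) ∧
      (∀ i, i < m + 1 → ‖rl α i‖ = ‖rl α m‖) ∧
      ∀ i, i < m → ∀ i', i' < m → i < i' → rl α i ≠ rl α i') := by
    refine RE.exb ?_
    refine RE.aff (R := fun x e α =>
      (∀ i, i < m + 1 →
        rl α i ^ kk x = ∑ t ∈ range (kk x), (aR x t : ℂ) * rl α i ^ (kk x - 1 - t)) ∧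
      ((kk x : ℂ) * rl α m ^ (kk x - 1) =
        ∑ t ∈ range (kk x), (aR x t : ℂ) * ((kk x - 1 - t : ℕ) : ℂ) * rl α m ^ (kk x - 1 - t - 1)) ∧
      (∀ i, i < m + 1 → ‖rl α i‖ = ‖rl α m‖) ∧
      ∀ i, i < m → ∀ i', i' < m → i < i' → rl α i ≠ rl α i') ?_ 2 1
    refine RE.and (RE.ball (UF.const (m + 1)) (RE.ceq ((cf_rl (UF.var 0)).pow hk) (CF.sum hk ?_)))
      (RE.and (RE.ceq ((CF.nat hk).mul ((cf_rl (UF.const m)).pow
        (hk.sub (UF.const 1)))) (CF.sum hk ?_))
      (RE.and (RE.ball (UF.const (m + 1)) (RE.eq (cf_rl (UF.var 0)).norm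
        (cf_rl (UF.const m)).norm))
      (RE.ball (UF.const m) (RE.ball (UF.const m) (RE.guard (UP.lt (UF.var 1) (UF.var 0))
        (RE.cne (cf_rl (UF.var 1)) (cf_rl (UF.var 0))))))))
    · refine (CF.ofReal ?_).mul ((cf_rl (UF.var 1)).pow ((hk.sub (UF.const 1)).sub (UF.var 0)))
      exact ha
    · refine ((CF.ofReal ?_).mul (CF.nat ((hk.sub (UF.const 1)).sub (UF.var 0)))).mul
        ((cf_rl (UF.const m)).pow (((hk.sub (UF.const 1)).sub (UF.var 0)).sub (UF.const 1)))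
      exact ha
  refine h1.congr fun x e α => ?_
  constructor
  · rintro ⟨α, h⟩
    exact ⟨rl α, h⟩
  · rintro ⟨z, h⟩
    refine ⟨encAll z 0 0 0 0 0 0 0 0 0 0 0 0, ?_⟩
    rw [rl_enc]
    exact h

/-- the derivative of the characteristic polynomial at a point -/
theorem Inst.deriv_iff (I : Inst) (aR : ℕ → ℝ)
    (ha : ∀ t (h : t < I.k), aR t = (I.a ⟨t, h⟩ : ℝ)) (z : ℂ) :
    Polynomial.aeval z (Polynomial.derivative I.charPoly) = 0 ↔
      (I.k : ℂ) * z ^ (I.k - 1) =
        ∑ t ∈ range I.k, (aR t : ℂ) * ((I.k - 1 - t : ℕ) : ℂ) * z ^ (I.k - 1 - t - 1) := by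
  unfold Inst.charPoly
  rw [Polynomial.derivative_sub, Polynomial.derivative_X_pow, Polynomial.derivative_sum, map_sub,
    map_sum, sub_eq_zero]
  have h1 : Polynomial.aeval z (Polynomial.C (I.k : ℚ) * Polynomial.X ^ (I.k - 1)) =
      (I.k : ℂ) * z ^ (I.k - 1) := by
    rw [map_mul, Polynomial.aeval_C, map_pow, Polynomial.aeval_X]
    simp
  rw [h1, Finset.sum_range]
  have h2 : ∀ t : Fin I.k, Polynomial.aeval z (Polynomial.derivative
      (Polynomial.C (I.a t) * Polynomial.X ^ (I.k - 1 - (t : ℕ)))) =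
      (aR t : ℂ) * ((I.k - 1 - t : ℕ) : ℂ) * z ^ (I.k - 1 - t - 1) := by
    intro t
    rw [Polynomial.derivative_C_mul, Polynomial.derivative_X_pow, map_mul, map_mul,
      Polynomial.aeval_C, Polynomial.aeval_C, map_pow, Polynomial.aeval_X, ha t t.2]
    simp
    ring
  rw [Finset.sum_congr rfl fun t _ => h2 t]

theorem Inst.withMultiple_iff (I : Inst) (s : ℕ) (aR : ℕ → ℝ)
    (ha : ∀ t (h : t < I.k), aR t = (I.a ⟨t, h⟩ : ℝ)) :
    I.AtMostWithMultiple s ↔ ¬ ManyWithMultiple (s + 1) I.k aR := by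
  classical
  constructor
  · rintro h ⟨z, h1, h2, h3, h4⟩
    have hroot : ∀ i, i < s + 1 + 1 → z i ∈ I.rootSet := fun i hi =>
      (I.mem_rootSet_iff aR ha (z i)).2 (h1 i hi)
    have h5 := h (z (s + 1)) (hroot _ (by omega)) ((I.deriv_iff aR ha _).2 h2)
    set S := (Finset.range (s + 1)).image z with hS
    have hcard : S.card = s + 1 := by
      rw [hS, Finset.card_image_of_injOn, Finset.card_range]
      intro i hi i' hi' hii
      rw [Finset.coe_range, Set.mem_Iio] at hi hi'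
      by_contra hne
      rcases lt_or_gt_of_ne hne with h5 | h5
      · exact h4 i hi i' hi' h5 hii
      · exact h4 i' hi' i hi h5 hii.symm
    have hsub : (S : Set ℂ) ⊆ {z' | z' ∈ I.rootSet ∧ ‖z'‖ = ‖z (s + 1)‖} := by
      intro z' hz'
      rw [hS, Finset.coe_image] at hz'
      obtain ⟨i, hi, rfl⟩ := hz'
      rw [Finset.coe_range, Set.mem_Iio] at hi
      exact ⟨hroot i (by omega), h3 i (by omega)⟩
    have h6 := (Set.encard_le_encard hsub).trans h5
    rw [Set.encard_coe_eq_coe_finsetCard, hcard] at h6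
    have h7 : s + 1 ≤ s := by exact_mod_cast h6
    omega
  · intro h y hy hy2
    by_contra hcon
    push Not at hcon
    apply h
    have h4 : ((s + 1 : ℕ) : ℕ∞) ≤ Set.encard {z' : ℂ | z' ∈ I.rootSet ∧ ‖z'‖ = ‖y‖} := by
      have h5 := Order.add_one_le_of_lt hcon
      push_cast
      exact h5
    obtain ⟨T, hT, hTc⟩ := Set.exists_subset_encard_eq h4
    have hTf : T.Finite := Set.finite_of_encard_eq_coe hTc
    have hTc' : hTf.toFinset.card = s + 1 := by
      rw [hTf.encard_eq_coe_toFinset_card] at hTc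
      exact_mod_cast hTc
    obtain ⟨e⟩ : Nonempty (Fin (s + 1) ≃ hTf.toFinset) := by
      refine ⟨(Fintype.equivFinOfCardEq ?_).symm⟩
      rw [Fintype.card_coe, hTc']
    have hlast : ¬ (s + 1 < s + 1) := by omega
    refine ⟨fun i => if hi : i < s + 1 then (e ⟨i, hi⟩ : ℂ) else y, ?_, ?_, ?_, ?_⟩
    · intro i hi
      by_cases hi' : i < s + 1
      · simp only [hi', dif_pos]
        exact (I.mem_rootSet_iff aR ha _).1 (hT (hTf.mem_toFinset.mp (e ⟨i, hi'⟩).2)).1
      · simp only [hi', dif_neg, not_false_eq_true]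
        exact (I.mem_rootSet_iff aR ha _).1 hy
    · simp only [hlast, dif_neg, not_false_eq_true]
      exact (I.deriv_iff aR ha _).1 hy2
    · intro i hi
      simp only [hlast, dif_neg, not_false_eq_true]
      by_cases hi' : i < s + 1
      · simp only [hi', dif_pos]
        exact (hT (hTf.mem_toFinset.mp (e ⟨i, hi'⟩).2)).2
      · simp only [hi', dif_neg, not_false_eq_true]
    · intro i hi i' hi' hii heq
      simp only [hi, hi', dif_pos] at heq
      have h5 := e.injective (Subtype.ext heq)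
      rw [Fin.mk.injEq] at h5
      omega

theorem Inst.Simple.withMultiple {I : Inst} (h : I.Simple) (s : ℕ) : I.AtMostWithMultiple s := by
  intro z hz hz2
  exfalso
  have ha : ∀ t (h : t < I.k), ((fun t => ((I.aQ t : ℚ) : ℝ)) t) = (I.a ⟨t, h⟩ : ℝ) := by
    intro t h
    simp only [Inst.aQ, h, dif_pos]
  refine (I.simple_iff _ ha).1 h ⟨z, fun e he => ?_⟩
  have h1 := (I.mem_rootSet_iff _ ha z).1 hz
  have h2 := (I.deriv_iff _ ha z).1 hz2
  interval_cases e
  · simpa using h1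
  · simpa using h2

/-- A circle has simple roots only, or at most `s` roots. -/
theorem Inst.circle_alt (I : Inst) (s : ℕ) (aR uR : ℕ → ℝ)
    (ha : ∀ t (h : t < I.k), aR t = (I.a ⟨t, h⟩ : ℝ)) (hs : I.AtMostWithMultiple s) {l c : ℕ → ℂ}
    {ex : ℕ → ℕ} (hrd : RootData I.k aR uR l c ex) (r : ℝ) :
    (∀ i : Fin I.k, ‖l i‖ = r → ex i = 0) ∨
      ({z | z ∈ Set.range (fun i : Fin I.k => l i) ∧ ‖z‖ = r}).ncard ≤ s := by
  by_cases h : ∀ i : Fin I.k, ‖l i‖ = r → ex i = 0
  · exact Or.inl h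
  · right
    push Not at h
    obtain ⟨i, hi, hne⟩ := h
    have h1 := hrd.2.2.1 i i.2 1 (by omega)
    have h2 : Polynomial.aeval (l i) (Polynomial.derivative I.charPoly) = 0 := by
      rw [I.deriv_iff aR ha]
      simp only [Nat.choose_one_right] at h1
      exact h1
    have h3 := hs (l i) (I.root_mem aR uR ha hrd i) h2
    have hrange : Set.range (fun i : Fin I.k => l i) = I.rootSet := by
      ext z
      constructor
      · rintro ⟨i, rfl⟩
        exact I.root_mem aR uR ha hrd i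
      · intro hz
        obtain ⟨i, hi⟩ := I.root_surj aR uR ha hrd z hz
        exact ⟨i, hi⟩
    rw [hrange]
    rw [hi] at h3
    have h5 : ({z | z ∈ I.rootSet ∧ ‖z‖ = r}).Finite := by
      rw [← hrange]
      exact (Set.finite_range _).subset fun z hz => hz.1
    rw [← h5.cast_ncard_eq] at h3
    exact_mod_cast h3

end Pool.Agent.UltPos
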