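import Pool.Agent.FrMul.Thr
import Pool.Agent.FrNar.TorB
import Pool.Agent.FrozenUP.Final

/-! The frozen sequences are ultimately positive beyond the threshold. -/

set_option autoImplicit false

namespace Pool.Agent.UltPos

open Pool.Agent.PT Pool.Agent.AllR Pool.Agent.DD7719.M Pool.Agent.DD7719 Finset Pool.Agent.FrUP
open Pool.Agent.FrNar

section
variable (I : Inst) (L : ℕ) (hkL : I.k ≤ L)
    (hb : ∀ i, (I.aNum i).natAbs ≤ 2 ^ L ∧ I.aDen i ≤ 2 ^ L)
    (hbu : ∀ i, (I.uNum i).natAbs ≤ 2 ^ L ∧ I.uDen i ≤ 2 ^ L) (aR uR : ℕ → ℝ)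
    (ha : ∀ t (h : t < I.k), aR t = (I.a ⟨t, h⟩ : ℝ))
    (hu : ∀ t (h : t < I.k), uR t = (I.u ⟨t, h⟩ : ℝ))
    (v : ℕ → ℚ) (hv : I.IsSeq v)

include hkL hb hbu ha hu hv in
/-- The proof of `Inst.up_thr` (`FrNar/UpE.lean`) with `ThrM`. -/
theorem Inst.up_thrM (s E : ℕ) (hE : ThrM s E) (hfr : I.FrozenPositive)
    (hs : I.AtMostWithMultiple s) {l c : ℕ → ℂ} {ex : ℕ → ℕ} (hrd : RootData I.k aR uR l c ex)
    (x : ℚ) (hx : (2 : ℝ) ^ ((2 + L) ^ E) < x) : ∃ N : ℕ, ∀ n : ℕ, N ≤ n →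
      0 < (fs (fun i : Fin I.k => l i) (fun i => c i) (fun i => ex i) (x : ℝ) n).re := by
  classical
  have hall := I.all' aR uR ha hu v hv hrd
  obtain ⟨l', c', ex', hrd', hl', hc'⟩ := I.exists_rootData_alg
  have ha' : ∀ t (h : t < I.k), ((fun t => ((I.aQ t : ℚ) : ℝ)) t) = (I.a ⟨t, h⟩ : ℝ) := by
    intro t h
    simp only [Inst.aQ, h, dif_pos]
  have hu' : ∀ t (h : t < I.k), ((fun t => ((I.uQ t : ℚ) : ℝ)) t) = (I.u ⟨t, h⟩ : ℝ) := by
    intro t h
    simp only [Inst.uQ, h, dif_pos]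
  have hall' := I.all' _ _ ha' hu' v hv hrd'
  have hexk : ∀ i : Fin I.k, ex' i < I.k := fun i => hrd'.1 i i.2
  suffices h : ∃ N : ℕ, ∀ n : ℕ, N ≤ n →
      0 < (fs (fun i : Fin I.k => l' i) (fun i => c' i) (fun i => ex' i) (x : ℝ) n).re by
    obtain ⟨N, hN⟩ := h
    refine ⟨N, fun n hn => ?_⟩
    rw [fs_indep v _ _ _ _ _ _ (fun i => hrd.1 i i.2) hexk hall hall' x n]
    exact hN n hn
  obtain ⟨n0, A, H, D, s', w, τ, y, ht⟩ := I.exists_torOK L hkL hb _ _ ha' hu' hrd'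
  refine up_at (fun i : Fin I.k => l' i) (fun i => c' i) (fun i => ex' i) I.kpos (x : ℝ) n0 ht.pos
    (fun i => fc_integral _ _ _ (fun i => hc' i) (fun i => hl' i) x i) (fun i => hl' i) ?_
    (fun n => (fs (fun i : Fin I.k => l' i) (fun i => c' i) (fun i => ex' i) (x : ℝ) n).re)
    (fun n => fs_real _ _ _ I.kpos hexk _ hall' x n) fun j hj hj' => ?_
  · intro i i' hi hi' n hn h
    by_contra hne
    have h1 : l' i ^ (n0 * n) = l' i' ^ (n0 * n) := by
      have h2 : (l' i / l' i') ^ (n0 * n) = 1 := h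
      rwa [div_pow, div_eq_one_iff_eq (pow_ne_zero _ hi')] at h2
    have h3 : ‖l' i‖ = ‖l' i'‖ := GS.norm_eq_of_pow_eq (Nat.mul_pos ht.pos hn) h1
    refine ht.tor i i' h3 (fun h4 => hne ?_) (n0 * n) (Nat.mul_pos ht.pos hn) h1
    show (l' i / l' i') ^ n0 = 1
    rw [div_pow, div_eq_one_iff_eq (pow_ne_zero _ hi')]
    exact h4
  · have hexj : ∀ i : Fin I.k, ex' i ≤ j := fun i => ((hexk i).le.trans hj)
    obtain ⟨hroot, hmain⟩ := hE I L hkL hb hbu _ _ ha' hu' v hv hfr hs l' c' ex' hrd' n0 j ht.pos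
      hj (x : ℝ) hx
    refine ⟨A, s', y, ht.rep, fun hvan => ?_, fun ρ hρ hvan z hz => ?_⟩
    · have hg0 := van_of_frozen (fun i : Fin I.k => l' i) (fun i => c' i) (fun i => ex' i) n0 j
        hexj x hroot (fun i => l' i ≠ 0) (by
          intro i i' h h'
          rw [← norm_ne_zero_iff] at h' ⊢
          rwa [← GS.norm_eq_of_pow_eq ht.pos h]) (fun i h => h) hvan
      obtain ⟨τ', hτ'⟩ := (I.frozenPositive_iff v hv _ _ _ hexk hall').1 hfr
      obtain ⟨N, hN⟩ := hτ' τ' le_rfl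
      have h3 := hN (j + n0 * N) (by
        have : N ≤ n0 * N := Nat.le_mul_of_pos_left N ht.pos
        omega)
      rw [fs_zero_of_gP _ _ _ n0 j ht.pos hexj hg0] at h3
      simp at h3
    · have hg0 := van_of_frozen (fun i : Fin I.k => l' i) (fun i => c' i) (fun i => ex' i) n0 j
        hexj x hroot (fun i => ρ < ‖l' i‖) (by
          intro i i' h h'
          rwa [← GS.norm_eq_of_pow_eq ht.pos h]) (fun i h => norm_pos_iff.mp (hρ.trans h)) hvan
      have hgood := I.goodD L hkL hb _ _ ha' hu' v hv hrd'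
      have hbF := (ht.base2 I.kpos (fun i => c' i) (fun i => ex' i) hexk hgood.hdc j hj hj' ρ
        hρ.le hg0).1
      have h4 := (hmain ρ hρ (2 ^ pmh L) _ A H D s' w τ (I.k - 1) Nat.one_le_two_pow
        (two_pow_lt_pbm L).le (Nat.pow_le_pow_right (by norm_num) (Nat.le_succ _)) hbF).1 hg0 z hz
      refine h4.trans_eq ?_
      congr 1
      unfold LevX
      refine Finset.sum_congr rfl fun i _ => ?_
      split_ifs with h2
      · rw [fc_mul_pow (fun i : Fin I.k => l' i) (fun i => c' i) (fun i => ex' i) x j i (hexj i)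
          (norm_pos_iff.mp (by rw [h2]; exact hρ))]
      · rfl

end

end Pool.Agent.UltPos
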