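import Pool.Agent.FrMul.FromM
import Pool.Agent.FrMul.UpM
import Pool.Agent.FrNar.USnd

/-! Frozen positive, frozen narrow instances with at most `s` roots on each circle which contains a
multiple root. -/

set_option autoImplicit false

namespace Pool.Agent.UltPos

open Filter Topology
open Pool.Agent.PT Pool.Agent.AllR Pool.Agent.DD7719.M Pool.Agent.DD7719 Finset Pool.Agent.FrUP
open Pool.Agent.FrNar

private lemma MainM_num (E : ℕ) : ∃ c : ℕ, ∀ n : ℕ, (2 + n) ^ E + 1 ≤ n ^ c + c := by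
  refine ⟨3 ^ E + 2 * E + 1, fun n => ?_⟩
  rcases Nat.lt_or_ge n 2 with h | h
  · have h1 : (2 + n) ^ E ≤ 3 ^ E := Nat.pow_le_pow_left (by omega) _
    omega
  · have h1 : (2 + n) ^ E ≤ n ^ (2 * E) := by
      rw [pow_mul]
      refine Nat.pow_le_pow_left ?_ _
      nlinarith
    have h2 : n ^ (2 * E) ≤ n ^ (3 ^ E + 2 * E + 1) :=
      Nat.pow_le_pow_right (by omega) ((Nat.le_add_left _ _).trans (Nat.le_succ _))
    have h4 := h1.trans h2
    exact Nat.add_le_add h4 (Nat.succ_le_succ (Nat.zero_le _))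

/-- **Theorem E for few roots on the circles which contain a multiple root** (the proof of
`exists_frozenFrom`, `FrNar/MainE.lean`). -/
theorem exists_frozenFromM (s : ℕ) : ∃ c : ℕ, ∀ I : Inst, I.FrozenPositive → I.FrozenNarrow →
    I.AtMostWithMultiple s →
    I.FrozenFrom (2 ^ (I.enc.length ^ c + c)) (2 ^ (I.enc.length ^ c + c)) := by
  obtain ⟨E, hE⟩ := exists_thrM s
  obtain ⟨c0, hc0⟩ := MainM_num E
  refine ⟨c0, fun I hfr hnar hs => ?_⟩
  obtain ⟨_, _, _, _, -, -, -, -, hpar⟩ := exists_parser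
  obtain ⟨L, hL⟩ : ∃ L : ℕ, L = I.enc.length := ⟨_, rfl⟩
  have hkL : I.k ≤ L := by
    rw [hL]
    exact (hpar I).2.1
  have hb := (hpar I).2.2.2.2.2.2
  rw [← hL] at hb
  rw [← hL]
  have hb1 : ∀ i, (I.aNum i).natAbs ≤ 2 ^ L ∧ I.aDen i ≤ 2 ^ L :=
    fun i => ⟨(hb i).1.le, (hb i).2.1.le⟩
  have hb2 : ∀ i, (I.uNum i).natAbs ≤ 2 ^ L ∧ I.uDen i ≤ 2 ^ L :=
    fun i => ⟨(hb i).2.2.1.le, (hb i).2.2.2.le⟩
  have ha : ∀ t (h : t < I.k), ((fun t => ((I.aQ t : ℚ) : ℝ)) t) = (I.a ⟨t, h⟩ : ℝ) := by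
    intro t h
    simp only [Inst.aQ, h, dif_pos]
  have hu : ∀ t (h : t < I.k), ((fun t => ((I.uQ t : ℚ) : ℝ)) t) = (I.u ⟨t, h⟩ : ℝ) := by
    intro t h
    simp only [Inst.uQ, h, dif_pos]
  obtain ⟨l, c, ex, hrd⟩ := I.exists_rootData' _ _ ha hu
  obtain ⟨v, hv, -⟩ := I.exists_unique_seq
  have hall := I.all' _ _ ha hu v hv hrd
  obtain ⟨T, hT⟩ : ∃ T : ℕ, T = L ^ c0 + c0 := ⟨_, rfl⟩
  have hTE : (2 + L) ^ E + 1 ≤ T := by
    rw [hT]
    exact hc0 L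
  rw [← hT]
  have hX : (2 : ℝ) ^ ((2 + L) ^ E) < ((2 ^ T : ℕ) : ℝ) := by
    push_cast
    exact pow_lt_pow_right₀ (by norm_num) (by omega)
  have hexp : 2 ^ ((2 + L) ^ E) ≤ 2 ^ T := Nat.pow_le_pow_right (by norm_num) (by omega)
  rw [I.frozenFrom_iff v hv (fun i : Fin I.k => l i) (fun i => c i) (fun i => ex i)
    (fun i => hrd.1 i i.2) hall]
  refine ⟨fun x hx => ?_, ?_⟩
  · refine I.up_thrM L hkL hb1 hb2 _ _ ha hu v hv s E hE hfr hs hrd x (hX.trans_le ?_)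
    exact_mod_cast hx
  · obtain ⟨n0, A, H, D, s', w, τ, y, hTor⟩ := I.exists_torOK L hkL hb1 _ _ ha hu hrd
    refine ⟨n0, hTor.pos, fun J hJ => ?_⟩
    obtain ⟨ρ, hρ, hB, hcase⟩ := I.class_fromM L hkL hb1 hb2 _ _ ha hu v hv s E hE hfr hnar hs hrd
      hTor J hJ
    refine ⟨ρ, hρ, fun x hx => hB x (hX.trans_le hx), ?_⟩
    rcases hcase with h | ⟨i, i', hii, hnt, hsep⟩
    · exact Or.inl fun x hx => h x (hX.trans_le hx)
    · refine Or.inr ⟨l i, I.root_mem _ _ ha hrd i, l i', I.root_mem _ _ ha hrd i', hii, hnt,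
        fun x hx ζ hζ ζ' hζ' hne => (hsep x (hX.trans_le hx) ζ hζ ζ' hζ' hne).trans ?_⟩
      refine mul_le_mul_of_nonneg_right ?_ (norm_nonneg _)
      refine pow_le_pow_right₀ ?_ hexp
      refine le_trans ?_ hx
      have h1 : 1 ≤ 2 ^ T := Nat.one_le_two_pow
      exact_mod_cast h1

end Pool.Agent.UltPos
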