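import Pool.Agent.FrEight.Defs

/-! Polynomial bounds. -/

set_option autoImplicit false

namespace Pool.Agent.FrNar

open Pool.Agent.FrUP Pool.Agent.MX Pool.Agent.DD7719.M

/-- bounded by a power of `2 + L` -/
def PB (f : ℕ → ℕ) : Prop := ∃ E : ℕ, ∀ L : ℕ, f L ≤ (2 + L) ^ E

theorem PB.const (c : ℕ) : PB fun _ => c :=
  ⟨c, fun L => (Nat.lt_two_pow_self).le.trans (Nat.pow_le_pow_left (by omega) c)⟩

theorem PB.id : PB fun L => L := ⟨1, fun L => by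
  show L ≤ (2 + L) ^ 1
  rw [pow_one]
  omega⟩

theorem PB.add {f g : ℕ → ℕ} (hf : PB f) (hg : PB g) : PB fun L => f L + g L := by
  obtain ⟨a, ha⟩ := hf
  obtain ⟨b, hb⟩ := hg
  refine ⟨a + b + 1, fun L => ?_⟩
  have h1 : (2 + L) ^ a ≤ (2 + L) ^ (a + b) := Nat.pow_le_pow_right (by omega) (by omega)
  have h2 : (2 + L) ^ b ≤ (2 + L) ^ (a + b) := Nat.pow_le_pow_right (by omega) (by omega)
  have h3 : (2 + L) ^ (a + b) * 2 ≤ (2 + L) ^ (a + b + 1) := by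
    rw [pow_succ (2 + L) (a + b)]
    exact Nat.mul_le_mul_left _ (by omega)
  have := ha L
  have := hb L
  show f L + g L ≤ _
  omega

theorem PB.mul {f g : ℕ → ℕ} (hf : PB f) (hg : PB g) : PB fun L => f L * g L := by
  obtain ⟨a, ha⟩ := hf
  obtain ⟨b, hb⟩ := hg
  refine ⟨a + b, fun L => ?_⟩
  rw [pow_add]
  exact Nat.mul_le_mul (ha L) (hb L)

theorem PB.pow {f : ℕ → ℕ} (hf : PB f) (c : ℕ) : PB fun L => f L ^ c := by
  obtain ⟨a, ha⟩ := hf
  refine ⟨a * c, fun L => ?_⟩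
  rw [pow_mul]
  exact Nat.pow_le_pow_left (ha L) c

theorem pb_pr : PB pr :=
  ((((PB.const 5).mul .id).mul .id).add ((PB.const 10).mul .id)).add (.const 28) |>.mul .id

theorem pb_pq : PB pq := (pb_pr.add .id).add (.const 3)

theorem pb_pmh : PB pmh :=
  (PB.id.mul .id).add (((pb_pq.mul .id).add (.const 1)).mul .id)

theorem pb_pbm : PB pbm := pb_pmh.add (.const 1)

theorem pb_pdl : PB pdl :=
  ((((((PB.const 3).add ((PB.const 4).mul .id)).add ((PB.const 2).mul pb_pbm)).add pb_pr).add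
    ((pb_pq.mul .id).add (.const 1))).add (pb_pq.mul (PB.id.add (.const 1)))).add
    ((PB.const 3).mul pb_pmh)

theorem pb_pbn : PB pbn :=
  (((PB.const 1).add (((PB.const 2).mul .id).mul .id)).add ((pb_pdl.add (.const 3)).mul .id)).add
    (.const 1)

theorem pb_pcx : PB pcx :=
  ((PB.const 20).mul ((PB.id.add (.const 1)).pow 4)).add
    ((PB.const 6).mul ((PB.id.add (.const 1)).pow 4))

/-- all sizes of the model -/
theorem num_modelB : ∃ E : ℕ, ∀ L : ℕ, 8 ≤ (2 + L) ^ E ∧ L + 2 + L ≤ (2 + L) ^ E ∧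
    2 ^ pbm L ≤ 2 ^ ((2 + L) ^ E) ∧ L ≤ 2 ^ ((2 + L) ^ E) ∧
    (2 * L * L + 2) ^ (3 * (L + 2) + 1) ≤ 2 ^ ((2 + L) ^ E) ∧
    pcx L + (L * L + 2 * L) * 2 ^ pbn L ≤ 2 ^ ((2 + L) ^ E) := by
  obtain ⟨E, hE⟩ : PB fun L => 8 + (L + 2 + L) + pbm L + L + (2 * L + 2) * (3 * (L + 2) + 1) +
      (pcx L + (L * L + 2 * L) + pbn L + 2) :=
    (((((PB.const 8).add ((PB.id.add (.const 2)).add .id)).add pb_pbm).add .id).add
      ((((PB.const 2).mul .id).add (.const 2)).mul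
        (((PB.const 3).mul (PB.id.add (.const 2))).add (.const 1)))).add
      (((pb_pcx.add ((PB.id.mul .id).add ((PB.const 2).mul .id))).add pb_pbn).add (.const 2))
  refine ⟨E, fun L => ?_⟩
  have h := hE L
  simp only at h
  have hmono : ∀ a : ℕ, a ≤ (2 + L) ^ E → 2 ^ a ≤ 2 ^ ((2 + L) ^ E) := fun a ha =>
    Nat.pow_le_pow_right (by norm_num) ha
  refine ⟨by omega, by omega, hmono _ (by omega), ?_, ?_, ?_⟩
  · exact (Nat.lt_two_pow_self).le.trans (hmono L (by omega))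
  · refine le_trans ?_ (hmono ((2 * L + 2) * (3 * (L + 2) + 1)) (by omega))
    rw [pow_mul]
    refine Nat.pow_le_pow_left ?_ _
    have h1 : L < 2 ^ L := Nat.lt_two_pow_self
    have h2 : 2 ^ (2 * L + 2) = 4 * (2 ^ L * 2 ^ L) := by
      rw [pow_add, two_mul, pow_add]
      ring
    rw [h2]
    have h3 : L * L ≤ 2 ^ L * 2 ^ L := Nat.mul_le_mul h1.le h1.le
    have h4 : 1 ≤ 2 ^ L * 2 ^ L := Nat.one_le_iff_ne_zero.mpr (by positivity)
    have h5 : 2 * L * L = 2 * (L * L) := by ring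
    omega
  · refine le_trans ?_ (hmono (pcx L + (L * L + 2 * L) + pbn L + 2) (by omega))
    have h1 : pcx L < 2 ^ pcx L := Nat.lt_two_pow_self
    have h2 : L * L + 2 * L < 2 ^ (L * L + 2 * L) := Nat.lt_two_pow_self
    have h3 : (L * L + 2 * L) * 2 ^ pbn L ≤ 2 ^ (L * L + 2 * L) * 2 ^ pbn L :=
      Nat.mul_le_mul_right _ h2.le
    have h4 : 2 ^ (pcx L + (L * L + 2 * L) + pbn L + 2) =
        4 * (2 ^ pcx L * (2 ^ (L * L + 2 * L) * 2 ^ pbn L)) := by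
      rw [pow_add, pow_add, pow_add]
      ring
    rw [h4]
    have h5 : 1 ≤ 2 ^ (L * L + 2 * L) * 2 ^ pbn L := Nat.one_le_iff_ne_zero.mpr (by positivity)
    have h6 : 1 ≤ 2 ^ pcx L := Nat.one_le_two_pow
    have h7 : 2 ^ pcx L ≤ 2 ^ pcx L * (2 ^ (L * L + 2 * L) * 2 ^ pbn L) :=
      Nat.le_mul_of_pos_right _ (by omega)
    have h8 : 2 ^ (L * L + 2 * L) * 2 ^ pbn L ≤
        2 ^ pcx L * (2 ^ (L * L + 2 * L) * 2 ^ pbn L) := Nat.le_mul_of_pos_left _ (by omega)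
    omega

end Pool.Agent.FrNar
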