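import Pool.Agent.FrNar.Model
import Pool.Agent.FrMul.Size

/-! The level function at a point as a linear form on a subtorus with the coordinates of the certified
torus: unboundedly many roots on the circle. -/

set_option autoImplicit false

namespace Pool.Agent.FrNar

open Finset Complex Polynomial
open Pool.Agent.DD7719 Pool.Agent.DD7719.M Pool.Agent.DD7719.M.GS Pool.Agent.MX Pool.Agent.FrUP

section rel

variable {k P0 : ℕ}

/-- the exponents of the relation `w b = ∏ t < s, z t ^ A t (r b)` -/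
def relG (A : Fin k → Fin k → ℤ) (s : ℕ) (r : Fin P0 → Fin k) (b : Fin P0) : Fin (P0 + k) → ℤ :=
  Fin.addCases (fun b' => if b' = b then 1 else 0) (fun t => if (t : ℕ) < s then -A t (r b) else 0)

theorem relG_prod (A : Fin k → Fin k → ℤ) (s : ℕ) (r : Fin P0 → Fin k) (b : Fin P0)
    (w : Fin (P0 + k) → ℂ) (hw : ∀ i, ‖w i‖ = 1) :
    ∏ i, w i ^ relG A s r b i = 1 ↔
      w (Fin.castAdd k b) = Wt A s (fun t => w (Fin.natAdd P0 t)) (r b) := by
  classical
  have hw0 : ∀ i, w i ≠ 0 := fun i => by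
    rw [← norm_pos_iff, hw i]
    exact one_pos
  have h1 : ∏ i, w i ^ relG A s r b i =
      w (Fin.castAdd k b) * (Wt A s (fun t => w (Fin.natAdd P0 t)) (r b))⁻¹ := by
    rw [Fin.prod_univ_add, Wt, ← Finset.prod_inv_distrib]
    congr 1
    · rw [Finset.prod_eq_single b]
      · rw [relG, Fin.addCases_left, if_pos rfl, zpow_one]
      · intro b' _ hne
        rw [relG, Fin.addCases_left, if_neg hne, zpow_zero]
      · exact fun h => absurd (Finset.mem_univ _) h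
    · refine Finset.prod_congr rfl fun t _ => ?_
      rw [relG, Fin.addCases_right]
      split_ifs
      · rw [zpow_neg]
      · rw [zpow_zero, inv_one]
  rw [h1]
  have h2 : Wt A s (fun t => w (Fin.natAdd P0 t)) (r b) ≠ 0 := by
    rw [← norm_pos_iff, norm_Wt A s _ (fun t => hw _)]
    exact one_pos
  rw [mul_inv_eq_one₀ h2]

theorem relG_le (A : Fin k → Fin k → ℤ) (s : ℕ) (r : Fin P0 → Fin k) (b : Fin P0) (M : ℕ)
    (hM : 1 ≤ M) (hA : ∀ t i, |A t i| ≤ M) (i : Fin (P0 + k)) : |relG A s r b i| ≤ M := by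
  have hM' : (1 : ℤ) ≤ M := by exact_mod_cast hM
  refine Fin.addCases (fun b' => ?_) (fun t => ?_) i
  · rw [relG, Fin.addCases_left]
    split_ifs
    · simpa using hM'
    · simp
  · rw [relG, Fin.addCases_right]
    split_ifs
    · rw [abs_neg]
      exact hA _ _
    · simp

end rel

/-- A common denominator of the roots. -/
theorem exists_rootDen (k L : ℕ) (num : ℕ → ℤ) (den : ℕ → ℕ) (hden0 : ∀ t, t < k → 0 < den t)
    (hden : ∀ t, t < k → den t ≤ 2 ^ L) :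
    ∃ A0 : ℕ, 0 < A0 ∧ A0 ≤ 2 ^ (L * k) ∧ ∀ z : ℂ,
      z ^ k = ∑ t ∈ Finset.range k, ((num t : ℂ) / (den t : ℂ)) * z ^ (k - 1 - t) →
      IsIntegral ℤ ((A0 : ℂ) * z) := by
  obtain ⟨A0, hA0⟩ : ∃ A0 : ℕ, A0 = ∏ s ∈ Finset.range k, den s := ⟨_, rfl⟩
  have hA0pos : 0 < A0 := by
    rw [hA0]
    exact Finset.prod_pos fun s hs => hden0 s (Finset.mem_range.mp hs)
  have hA0le : A0 ≤ 2 ^ (L * k) := by
    have := prod_den_le (range k) den L (fun i hi => hden i (Finset.mem_range.mp hi))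
    rw [hA0]
    rwa [Finset.card_range] at this
  refine ⟨A0, hA0pos, hA0le, fun z hz => ?_⟩
  have h1 := isIntegral_leadingCoeff_smul _ _ (ipoly_aeval k num den hden0 z hz)
  have hlc : (ipoly k num den).leadingCoeff = (A0 : ℤ) := by
    have hck : (ipoly k num den).coeff k = (A0 : ℤ) := by
      rw [ipoly_coeff, if_pos rfl, hA0]
      push_cast
      rfl
    have hnd : (ipoly k num den).natDegree = k := by
      apply le_antisymm (ipoly_natDegree k num den)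
      apply Polynomial.le_natDegree_of_ne_zero
      rw [hck]
      exact_mod_cast hA0pos.ne'
    rw [Polynomial.leadingCoeff, hnd, hck]
  rw [hlc, zsmul_eq_mul] at h1
  exact_mod_cast h1

/-- **The subtorus of the level and of two more roots**, for unboundedly many roots on the circle. -/
theorem big_model : ∃ E : ℕ, ∀ (k L : ℕ) (_ : k ≤ L) (num numu : ℕ → ℤ)
    (den denu : ℕ → ℕ) (_ : ∀ t, t < k → 0 < den t) (_ : ∀ t, t < k → 0 < denu t)
    (_ : ∀ t, t < k → (num t).natAbs ≤ 2 ^ L) (_ : ∀ t, t < k → den t ≤ 2 ^ L)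
    (_ : ∀ t, t < k → (numu t).natAbs ≤ 2 ^ L) (_ : ∀ t, t < k → denu t ≤ 2 ^ L)
    (a u : ℕ → ℝ) (_ : ∀ t, t < k → a t = (num t : ℝ) / (den t : ℝ))
    (_ : ∀ t, t < k → u t = (numu t : ℝ) / (denu t : ℝ))
    (l c : ℕ → ℂ) (ex : ℕ → ℕ) (_ : RootData k a u l c ex)
    (R M Nb : ℕ) (ε δ : ℝ) (v : ℕ → ℝ)
    (_ : GoodD k (fun i => l i) (fun i => c i) (fun i => ex i) R M ε δ v) (_ : 1 ≤ M)
    (_ : M ≤ 2 ^ pbm L) (_ : Nb ≤ 2 ^ pbn L) (n0 j : ℕ) (_ : k ≤ j) (ρ : ℝ) (_ : 0 < ρ)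
    (A H : Fin k → Fin k → ℤ) (D : ℤ) (s' : ℕ) (w : Fin k → Fin k → ℝ)
    (τ : Fin k → ℝ) (d : ℕ)
    (_ : BaseF k (fun i => l i) (fun i => c i) (fun i => ex i) M Nb ε δ n0 j A H D s' w τ ρ d)
    (i1 i2 : Fin k),
    ∃ (F : IntermediateField ℚ ℂ) (_ : FiniteDimensional ℚ F) (P B Dg Hc D0 : ℕ)
      (cc : Fin P → ℕ → F) (S : Set (Fin P → ℤ)) (ζ : (Fin P → ℤ) → F) (a b : Fin P)
      (W : (Fin k → ℂ) → Fin P → ℂ),
      (∀ z ∈ F, (starRingEnd ℂ) z ∈ F) ∧ I ∈ F ∧ 8 ≤ (2 + L) ^ E ∧ P ≤ (2 + L) ^ E ∧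
      B ≤ 2 ^ ((2 + L) ^ E) ∧ k ≤ 2 ^ ((2 + L) ^ E) ∧ Dg ≤ 2 ^ ((2 + L) ^ E) ∧
      Hc ≤ 2 ^ ((2 + L) ^ E) ∧ Module.finrank ℚ F ≤ Dg ∧ 0 < D0 ∧ D0 ≤ 2 ^ Hc ∧
      (∀ i e, IsIntegral ℤ ((D0 : ℂ) * (cc i e : ℂ))) ∧
      (∀ i e, ∀ φ : F →ₐ[ℚ] ℂ, ‖φ (cc i e)‖ ≤ 2 ^ Hc) ∧
      (∀ g ∈ S, ∀ i, |g i| ≤ B) ∧ (∀ g ∈ S, ∃ m : ℕ, 0 < m ∧ ζ g ^ m = 1) ∧
      (∀ z : Fin k → ℂ, (∀ t, ‖z t‖ = 1) → (∀ i, ‖W z i‖ = 1) ∧
        (∀ g ∈ S, ∏ i, W z i ^ g i = (ζ g : ℂ)) ∧
        (∀ x : ℝ, (LevX (fun i : Fin k => l i) (fun i => c i) (fun i => ex i) A s' j ρ x z).re =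
          fX k cc x (W z)) ∧
        W z a / W z b = Wt A s' z i1 / Wt A s' z i2) ∧
      (∀ w : Fin P → ℂ, (∀ i, ‖w i‖ = 1) → (∀ g ∈ S, ∏ i, w i ^ g i = (ζ g : ℂ)) →
        ∃ z : Fin k → ℂ, (∀ t, ‖z t‖ = 1) ∧ W z = w) := by
  obtain ⟨E, hE⟩ := num_modelB
  refine ⟨E, ?_⟩
  intro k L hkL num numu den denu hden0 hdenu0 hnum hden hnumu hdenu a u ha hu l c ex hrd R M Nb ε δ v
    hgd hM1 hM2 hNb n0 j hkj ρ hρ A H D s' w τ d hbase i1 i2
  obtain ⟨hE1, hE2, hE3, hE4, hE5, hE6⟩ := hE L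
  set lF : Fin k → ℂ := fun i => l i with hlF
  set cF : Fin k → ℂ := fun i => c i with hcF
  set eF : Fin k → ℕ := fun i => ex i with heF
  have hcard : ({z | z ∈ Set.range lF ∧ ‖z‖ = ρ}).ncard ≤ k := by
    have h1 : ({z | z ∈ Set.range lF ∧ ‖z‖ = ρ}).ncard ≤ (Set.range lF).ncard :=
      Set.ncard_le_ncard (fun z hz => hz.1) (Set.finite_range _)
    refine h1.trans ?_
    have h2 : (Set.range lF).ncard ≤ (Set.univ : Set (Fin k)).ncard := by
      rw [← Set.image_univ]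
      exact Set.ncard_image_le (Set.finite_univ)
    rwa [Set.ncard_univ, Nat.card_eq_fintype_card, Fintype.card_fin] at h2
  obtain ⟨p, r0, hps, hR⟩ := exists_reps lF ρ k hcard
  have hr : ∀ b, ‖lF (r0 b)‖ = ρ := hR.nrm
  -- the indices
  obtain ⟨r, hrdef⟩ : ∃ r : Fin (p + 2) → Fin k, r = Fin.append r0 ![i1, i2] := ⟨_, rfl⟩
  have hrc : ∀ b : Fin p, r (Fin.castAdd 2 b) = r0 b := fun b => by
    rw [hrdef]
    exact Fin.append_left _ _ _
  have hrn : ∀ b : Fin 2, r (Fin.natAdd p b) = (![i1, i2] : Fin 2 → Fin k) b := fun b => by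
    rw [hrdef]
    exact Fin.append_right _ _ _
  -- the roots
  have hrt : ∀ i : Fin k, (l i) ^ k =
      ∑ t ∈ Finset.range k, ((num t : ℂ) / (den t : ℂ)) * (l i) ^ (k - 1 - t) := by
    intro i
    have h0 := hrd.2.2.1 i i.2 0 (Nat.zero_le _)
    simp only [Nat.choose_zero_right, Nat.cast_one, one_mul, mul_one, Nat.sub_zero] at h0
    rw [h0]
    apply Finset.sum_congr rfl
    intro t ht
    rw [ha t (Finset.mem_range.mp ht)]
    push_cast
    rfl
  obtain ⟨F, hfd, hfr, hconj, hIF, hnF, hlmem⟩ := roots_field k (p + 2) num den hden0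
    (fun b => lF (r b)) (fun b => hrt (r b))
  obtain ⟨D1, hD1, hD1le, hD1i⟩ := pc_integral k L hkL num numu den denu hden0 hdenu0 hnum hden
    hnumu hdenu a u ha hu l c ex hrd
  obtain ⟨A0, hA0, hA0le, hA0i⟩ := exists_rootDen k L num den hden0 hden
  have hlmem0 : ∀ b : Fin p, lF (r0 b) ∈ F := fun b => by
    have := hlmem (Fin.castAdd 2 b)
    rw [hrc] at this
    exact this
  have hpf : ∀ (b : Fin p) (e : ℕ), ∃ h : pc lF cF eF (lF (r0 b)) e ∈ F,
      ∀ φ : F →ₐ[ℚ] ℂ, ‖φ ⟨_, h⟩‖ ≤ 2 ^ pcx L := fun b e =>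
    pc_field k L hkL num numu den denu hden0 hdenu0 hnum hden hnumu hdenu a u ha hu l c ex hrd
      (r0 b) F (hlmem0 b) e
  choose hpm hpφ using hpf
  have hlφ : ∀ (b : Fin p) (φ : F →ₐ[ℚ] ℂ), ‖φ ⟨lF (r0 b), hlmem0 b⟩‖ ≤ 2 ^ (2 * L) := by
    intro b φ
    have hrF : (⟨lF (r0 b), hlmem0 b⟩ : F) ^ k = ∑ t ∈ Finset.range k,
        ((num t : F) / (den t : F)) * (⟨lF (r0 b), hlmem0 b⟩ : F) ^ (k - 1 - t) := by
      apply Subtype.ext
      push_cast
      exact hrt (r0 b)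
    refine root_norm_le k num den L hkL hden0 hnum _ ?_
    have h1 := congrArg φ hrF
    rw [map_pow, map_sum] at h1
    rw [h1]
    refine Finset.sum_congr rfl fun t _ => ?_
    rw [map_mul, map_div₀, map_pow, map_intCast, map_natCast]
  -- the coefficients
  obtain ⟨q, hq⟩ : ∃ q : ℕ, q = j - k := ⟨_, rfl⟩
  have hqle : q ≤ 2 ^ pbn L := by
    obtain ⟨_, h2, _, h4, _⟩ := hbase
    omega
  obtain ⟨cc, hccc, hccn, hcct⟩ : ∃ cc : Fin (p + 2 + k) → ℕ → F,
      (∀ b e, cc (Fin.castAdd k (Fin.castAdd 2 b)) e =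
        ⟨pc lF cF eF (lF (r0 b)) e, hpm b e⟩ * ⟨lF (r0 b), hlmem0 b⟩ ^ q) ∧
      (∀ b e, cc (Fin.castAdd k (Fin.natAdd p b)) e = 0) ∧
      (∀ t e, cc (Fin.natAdd (p + 2) t) e = 0) :=
    ⟨fun i e => Fin.addCases (motive := fun _ => F) (fun i' => Fin.addCases (motive := fun _ => F)
        (fun b => (⟨pc lF cF eF (lF (r0 b)) e, hpm b e⟩ : F) * ⟨lF (r0 b), hlmem0 b⟩ ^ q)
          (fun _ => 0) i') (fun _ => 0) i,
      fun b e => (Fin.addCases_left _).trans (Fin.addCases_left _),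
      fun b e => (Fin.addCases_left _).trans (Fin.addCases_right _),
      fun t e => Fin.addCases_right _⟩
  obtain ⟨Hc, hHc⟩ : ∃ Hc : ℕ, Hc = pcx L + (L * L + 2 * L) * 2 ^ pbn L := ⟨_, rfl⟩
  have hbm : ∀ t i, |A t i| ≤ (M : ℤ) := hbase.2.2.2.2.2.2.2.2.1
  obtain ⟨W, hWl, hWr⟩ : ∃ W : (Fin k → ℂ) → Fin (p + 2 + k) → ℂ,
      (∀ z b, W z (Fin.castAdd k b) = Wt A s' z (r b)) ∧
      (∀ z t, W z (Fin.natAdd (p + 2) t) = z t) :=
    ⟨fun z => Fin.addCases (motive := fun _ => ℂ) (fun b => Wt A s' z (r b)) z,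
      fun z b => Fin.addCases_left _, fun z t => Fin.addCases_right _⟩
  refine ⟨F, hfd, p + 2 + k, M, (2 * L * L + 2) ^ (3 * (L + 2) + 1), Hc, D1 * A0 ^ q, cc,
    {g | ∃ b : Fin (p + 2), g = relG A s' r b}, fun _ => 1,
    Fin.castAdd k (Fin.natAdd p 0), Fin.castAdd k (Fin.natAdd p 1),
    W, hconj, hIF,
    hE1, by omega, hM2.trans hE3, hkL.trans hE4, hE5, by rw [hHc]; exact hE6, ?_, by positivity,
    ?_, ?_, ?_, ?_, ?_, ?_, ?_⟩
  · refine hfr.trans ?_
    have h : k * k ≤ L * L := Nat.mul_le_mul hkL hkL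
    calc (2 * k * k + 2) ^ (3 * (p + 2) + 1) ≤ (2 * L * L + 2) ^ (3 * (p + 2) + 1) := by
          refine Nat.pow_le_pow_left ?_ _
          nlinarith
      _ ≤ (2 * L * L + 2) ^ (3 * (L + 2) + 1) := Nat.pow_le_pow_right (by omega) (by omega)
  · have h1 : A0 ^ q ≤ 2 ^ (L * L * 2 ^ pbn L) := by
      calc A0 ^ q ≤ (2 ^ (L * k)) ^ q := Nat.pow_le_pow_left hA0le q
        _ = 2 ^ (L * k * q) := by rw [← pow_mul]
        _ ≤ 2 ^ (L * L * 2 ^ pbn L) := by
          refine Nat.pow_le_pow_right (by norm_num) ?_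
          exact Nat.mul_le_mul (Nat.mul_le_mul_left _ hkL) hqle
    calc D1 * A0 ^ q ≤ 2 ^ pcx L * 2 ^ (L * L * 2 ^ pbn L) := Nat.mul_le_mul hD1le h1
      _ = 2 ^ (pcx L + L * L * 2 ^ pbn L) := by rw [← pow_add]
      _ ≤ 2 ^ Hc := by
        refine Nat.pow_le_pow_right (by norm_num) ?_
        rw [hHc]
        have h2 : L * L * 2 ^ pbn L ≤ (L * L + 2 * L) * 2 ^ pbn L :=
          Nat.mul_le_mul_right _ (by omega)
        omega
  · intro i e
    induction i using Fin.addCases with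
    | left i' =>
      induction i' using Fin.addCases with
      | left b =>
        rw [hccc]
        push_cast
        have h1 : (D1 : ℂ) * (A0 : ℂ) ^ q * (pc lF cF eF (lF (r0 b)) e * lF (r0 b) ^ q) =
            ((D1 : ℂ) * pc lF cF eF (lF (r0 b)) e) * ((A0 : ℂ) * lF (r0 b)) ^ q := by
          rw [mul_pow]
          ring
        rw [h1]
        exact (hD1i (r0 b) e).mul ((hA0i _ (hrt (r0 b))).pow q)
      | right b =>
        rw [hccn]
        simp only [ZeroMemClass.coe_zero, mul_zero]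
        exact isIntegral_zero
    | right t =>
      rw [hcct]
      simp only [ZeroMemClass.coe_zero, mul_zero]
      exact isIntegral_zero
  · intro i e φ
    induction i using Fin.addCases with
    | left i' =>
      induction i' using Fin.addCases with
      | left b =>
        rw [hccc, map_mul, map_pow, norm_mul, norm_pow]
        have h1 : ‖φ ⟨lF (r0 b), hlmem0 b⟩‖ ^ q ≤ 2 ^ (2 * L * 2 ^ pbn L) := by
          calc ‖φ ⟨lF (r0 b), hlmem0 b⟩‖ ^ q ≤ (2 ^ (2 * L)) ^ q :=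
                pow_le_pow_left₀ (norm_nonneg _) (hlφ b φ) q
            _ = 2 ^ (2 * L * q) := by rw [← pow_mul]
            _ ≤ 2 ^ (2 * L * 2 ^ pbn L) :=
                pow_le_pow_right₀ (by norm_num) (Nat.mul_le_mul_left _ hqle)
        calc ‖φ ⟨pc lF cF eF (lF (r0 b)) e, hpm b e⟩‖ * ‖φ ⟨lF (r0 b), hlmem0 b⟩‖ ^ q
            ≤ 2 ^ pcx L * 2 ^ (2 * L * 2 ^ pbn L) :=
              mul_le_mul (hpφ b e φ) h1 (by positivity) (by positivity)
          _ = 2 ^ (pcx L + 2 * L * 2 ^ pbn L) := by rw [← pow_add]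
          _ ≤ 2 ^ Hc := by
            refine pow_le_pow_right₀ (by norm_num) ?_
            rw [hHc]
            have h2 : 2 * L * 2 ^ pbn L ≤ (L * L + 2 * L) * 2 ^ pbn L :=
              Nat.mul_le_mul_right _ (by omega)
            omega
      | right b =>
        rw [hccn, map_zero, norm_zero]
        positivity
    | right t =>
      rw [hcct, map_zero, norm_zero]
      positivity
  · rintro g ⟨b, rfl⟩ i
    exact relG_le A s' r b M hM1 hbm i
  · intro g _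
    exact ⟨1, one_pos, one_pow _⟩
  · intro z hz
    have hWn : ∀ i : Fin (p + 2 + k), ‖W z i‖ = 1 := by
      intro i
      refine Fin.addCases (fun b => ?_) (fun t => ?_) i
      · rw [hWl]
        exact norm_Wt A s' z hz _
      · rw [hWr]
        exact hz t
    have hWz : (fun t => W z (Fin.natAdd (p + 2) t)) = z := funext fun t => hWr z t
    refine ⟨hWn, ?_, ?_, ?_⟩
    · rintro g ⟨b, rfl⟩
      have h1 := (relG_prod A s' r b (W z) hWn).2 (by rw [hWl, hWz])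
      rw [h1]
      simp
    · intro x
      have h1 : LevX lF cF eF A s' j ρ x z = (ρ : ℂ) ^ (j - k) * ∑ b : Fin p,
          (∑ e ∈ Finset.range (k + 1), pc lF cF eF (lF (r0 b)) e * (x : ℂ) ^ e) *
            (bpt lF ρ (j - k) r0 b * Wt A s' z (r0 b)) :=
        sum_circle lF cF eF hgd.hex j hkj ρ hρ r0 hR x (Wt A s' z)
          (fun i i' h => Wt_eq_of_eq lF cF eF R M Nb ε δ v hgd n0 j A H D s' w τ ρ d hbase z hz i i' h)
      rw [h1, fX]
      congr 1
      rw [Fin.sum_univ_add, Fin.sum_univ_add, Finset.mul_sum]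
      have h3 : (∑ i : Fin 2, (∑ e ∈ Finset.range (k + 1),
          (cc (Fin.castAdd k (Fin.natAdd p i)) e : ℂ) * (x : ℂ) ^ e) *
            W z (Fin.castAdd k (Fin.natAdd p i))) = 0 := by
        refine Finset.sum_eq_zero fun i _ => ?_
        rw [Finset.sum_eq_zero, zero_mul]
        intro e _
        rw [hccn]
        simp
      have h4 : (∑ t : Fin k, (∑ e ∈ Finset.range (k + 1),
          (cc (Fin.natAdd (p + 2) t) e : ℂ) * (x : ℂ) ^ e) *
            W z (Fin.natAdd (p + 2) t)) = 0 := by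
        refine Finset.sum_eq_zero fun i _ => ?_
        rw [Finset.sum_eq_zero, zero_mul]
        intro e _
        rw [hcct]
        simp
      rw [h3, h4, add_zero, add_zero]
      refine Finset.sum_congr rfl fun b _ => ?_
      rw [hWl, hrc, bpt_eq lF ρ hρ (j - k) r0 hr b, ← hq]
      have h5 : (ρ : ℂ) ^ q * nz (lF (r0 b)) ^ q = lF (r0 b) ^ q := by
        rw [← mul_pow, ← hr b, nz_mul_norm]
      have h6 : (∑ e ∈ Finset.range (k + 1), (cc (Fin.castAdd k (Fin.castAdd 2 b)) e : ℂ) *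
          (x : ℂ) ^ e) = (∑ e ∈ Finset.range (k + 1), pc lF cF eF (lF (r0 b)) e * (x : ℂ) ^ e) *
            lF (r0 b) ^ q := by
        rw [Finset.sum_mul]
        refine Finset.sum_congr rfl fun e _ => ?_
        rw [hccc]
        push_cast
        ring
      rw [h6, ← h5]
      ring
    · rw [hWl, hWl]
      have h1 : r (Fin.natAdd p 0) = i1 := hrn 0
      have h2 : r (Fin.natAdd p 1) = i2 := hrn 1
      rw [h1, h2]
  · intro w' hw' hwS
    refine ⟨fun t => w' (Fin.natAdd (p + 2) t), fun t => hw' _, ?_⟩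
    funext i
    refine Fin.addCases (fun b => ?_) (fun t => ?_) i
    · rw [hWl]
      refine ((relG_prod A s' r b w' hw').1 ?_).symm
      have h1 := hwS _ ⟨b, rfl⟩
      rw [h1]
      simp
    · rw [hWr]

end Pool.Agent.FrNar
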