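import Pool.Agent.MX.ElimMin
import Pool.Agent.FrNar.Sz

/-! Arithmetic of the bounds for unboundedly many coordinates. -/

set_option autoImplicit false

namespace Pool.Agent.FrNar

open Pool.Agent.MX

/-- the bounds of the elimination for `n ≤ 2 K` coordinates and degrees, heights up to `2 ^ K` -/
theorem num_big (K n B E Dg Hc : ℕ) (hK : 8 ≤ K) (hn : n ≤ 2 * K) (hB : B ≤ 2 ^ K) (hE : E ≤ 2 ^ K)
    (hDg : Dg ≤ 2 ^ K) (hHc : Hc ≤ 2 ^ K) :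
    ∃ m0 : ℕ, BdD (4 * (n * B + 3)) (2 * n + 1) (szB n B E Hc) < 2 ^ (m0 + 1) ∧
      BdD (4 * (n * B + E + (m0 + 2) + 3)) (2 * n + 2) (szB n B E Hc) ^ Dg ≤ 2 ^ (2 ^ (K ^ 9)) ∧
      m0 + 3 ≤ 2 ^ (K ^ 9) := by
  have h2 : ∀ a b : ℕ, a ≤ b → 2 ^ a ≤ 2 ^ b := fun a b h => Nat.pow_le_pow_right (by norm_num) h
  have hKK : 8 * K ≤ K ^ 2 := by rw [pow_two]; exact Nat.mul_le_mul_right _ hK
  have hKp : ∀ m : ℕ, 8 * K ^ m ≤ K ^ (m + 1) := fun m => by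
    rw [pow_succ, mul_comm]
    exact Nat.mul_le_mul_left _ hK
  have hone : ∀ m : ℕ, 1 ≤ K ^ m := fun m => Nat.one_le_pow _ _ (by omega)
  have hK2 : ∀ m : ℕ, 1 ≤ m → 8 ≤ K ^ m := fun m hm =>
    hK.trans (Nat.le_self_pow (by omega) K)
  -- the small numbers
  have hX1 : 2 * K ≤ 2 ^ K := by
    have h := Nat.lt_two_pow_self (n := K - 1)
    have h3 : 2 ^ K = 2 * 2 ^ (K - 1) := by
      rw [← pow_succ']
      congr 1
      omega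
    omega
  have hpos : 256 ≤ 2 ^ K := by
    calc 256 = 2 ^ 8 := by norm_num
      _ ≤ 2 ^ K := h2 _ _ hK
  obtain ⟨X, hX⟩ : ∃ X : ℕ, X = 2 ^ K := ⟨_, rfl⟩
  rw [← hX] at hX1 hpos hB hE hDg hHc
  have hnB : n * B ≤ X * X := Nat.mul_le_mul (hn.trans hX1) hB
  have hXX : X * X = 2 ^ (2 * K) := by rw [hX, ← pow_add, two_mul]
  have hXle : X ≤ X * X := by nlinarith
  have hb : 20 * (n + 1) * (B + 1) + 4 * Hc + 2 * E ≤ 2 ^ (K ^ 2) := by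
    have e1 : (n + 1) * (B + 1) ≤ (2 * X) * (2 * X) := Nat.mul_le_mul (by omega) (by omega)
    have e2 : 20 * (n + 1) * (B + 1) = 20 * ((n + 1) * (B + 1)) := by ring
    calc 20 * (n + 1) * (B + 1) + 4 * Hc + 2 * E ≤ 128 * (X * X) := by
          rw [e2]
          nlinarith
      _ = 2 ^ (2 * K + 7) := by rw [hXX, pow_add]; norm_num; ring
      _ ≤ 2 ^ (K ^ 2) := h2 _ _ (by omega)
  have hD1 : 4 * (n * B + 3) + 1 ≤ 2 ^ (K ^ 2) := by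
    calc 4 * (n * B + 3) + 1 ≤ 8 * (X * X) := by nlinarith
      _ = 2 ^ (2 * K + 3) := by rw [hXX, pow_add]; norm_num; ring
      _ ≤ 2 ^ (K ^ 2) := h2 _ _ (by omega)
  obtain ⟨bb, hbb⟩ : ∃ bb : ℕ, bb = 20 * (n + 1) * (B + 1) + 4 * Hc + 2 * E := ⟨_, rfl⟩
  have hsz : szB n B E Hc = 2 ^ bb := by rw [szB, hbb]
  rw [← hbb] at hb
  obtain ⟨D1, hD1e⟩ : ∃ D1 : ℕ, D1 = 4 * (n * B + 3) := ⟨_, rfl⟩
  rw [← hD1e] at hD1 ⊢
  have hN1 : (D1 + 1) ^ (2 * n + 1) ≤ 2 ^ (K ^ 4) := by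
    calc (D1 + 1) ^ (2 * n + 1) ≤ (2 ^ (K ^ 2)) ^ (2 * n + 1) := Nat.pow_le_pow_left hD1 _
      _ = 2 ^ (K ^ 2 * (2 * n + 1)) := by rw [← pow_mul]
      _ ≤ 2 ^ (K ^ 4) := by
        refine h2 _ _ ?_
        have e1 : K ^ 4 = K ^ 2 * K ^ 2 := by ring
        rw [e1]
        exact Nat.mul_le_mul_left _ (by omega)
  have h24 : (2 : ℕ) ^ (K ^ 2) ≤ 2 ^ (K ^ 4) := h2 _ _ (Nat.pow_le_pow_right (by omega) (by omega))
  have hXK : ∀ m : ℕ, 1 ≤ m → X ≤ 2 ^ (K ^ m) := fun m hm => by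
    rw [hX]
    exact h2 _ _ (Nat.le_self_pow (by omega) K)
  have hnX : ∀ m : ℕ, 2 ≤ m → 2 * n + 2 ≤ 2 ^ (K ^ m) := fun m hm => by
    have e1 : 2 * n + 2 ≤ 4 * X := by omega
    calc 2 * n + 2 ≤ 4 * X := e1
      _ = 2 ^ (K + 2) := by rw [hX, pow_add]; norm_num; ring
      _ ≤ 2 ^ (K ^ 2) := h2 _ _ (by omega)
      _ ≤ 2 ^ (K ^ m) := h2 _ _ (Nat.pow_le_pow_right (by omega) hm)
  have key1 := total_le D1 (2 * n + 1) ((D1 + 1) ^ (2 * n + 1)) bb 0 1 (2 ^ (K ^ 4))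
    (by
      calc 2 = 2 ^ 1 := by norm_num
        _ ≤ _ := h2 _ _ (hone 4)) (hD1.trans h24) ((by omega : 2 * n + 1 ≤ 2 * n + 2).trans
      (hnX 4 (by omega))) hN1 (hb.trans h24) (by simpa using Nat.one_le_two_pow)
    (by simpa using Nat.one_le_two_pow)
  obtain ⟨m0, hm0⟩ : ∃ m0 : ℕ, m0 = (2 ^ (K ^ 4)) ^ 8 := ⟨_, rfl⟩
  rw [← hm0] at key1
  have hm0' : m0 = 2 ^ (8 * K ^ 4) := by rw [hm0, ← pow_mul, mul_comm]
  refine ⟨m0, ?_, ?_, ?_⟩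
  · rw [hsz]
    refine lt_of_le_of_lt (BdD_le D1 (2 * n + 1) (2 ^ bb) bb le_rfl) ?_
    exact Nat.pow_lt_pow_right (by norm_num) (by omega)
  · obtain ⟨D2, hD2e⟩ : ∃ D2 : ℕ, D2 = 4 * (n * B + E + (m0 + 2) + 3) := ⟨_, rfl⟩
    rw [← hD2e, hsz]
    have hXX4 : X * X ≤ m0 := by
      rw [hm0', hXX]
      exact h2 _ _ (by
        have e1 : 8 * K ^ 3 ≤ K ^ 4 := hKp 3
        have e2 : K ≤ K ^ 3 := Nat.le_self_pow (by omega) K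
        omega)
    have hD2 : D2 + 1 ≤ 2 ^ (K ^ 6) := by
      calc D2 + 1 ≤ 16 * m0 := by
            rw [hD2e]
            nlinarith
        _ = 2 ^ (8 * K ^ 4 + 4) := by rw [hm0', pow_add]; norm_num; ring
        _ ≤ 2 ^ (K ^ 6) := by
          refine h2 _ _ ?_
          have e1 : 8 * K ^ 4 ≤ K ^ 5 := hKp 4
          have e2 : 8 * K ^ 5 ≤ K ^ 6 := hKp 5
          have e3 := hone 5
          omega
    have hN2 : (D2 + 1) ^ (2 * n + 2) ≤ 2 ^ (K ^ 8) := by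
      calc (D2 + 1) ^ (2 * n + 2) ≤ (2 ^ (K ^ 6)) ^ (2 * n + 2) := Nat.pow_le_pow_left hD2 _
        _ = 2 ^ (K ^ 6 * (2 * n + 2)) := by rw [← pow_mul]
        _ ≤ 2 ^ (K ^ 8) := by
          refine h2 _ _ ?_
          have e1 : K ^ 8 = K ^ 6 * K ^ 2 := by ring
          rw [e1]
          exact Nat.mul_le_mul_left _ (by omega)
    have hmono : ∀ a b : ℕ, a ≤ b → (2 : ℕ) ^ (K ^ a) ≤ 2 ^ (K ^ b) := fun a b h =>
      h2 _ _ (Nat.pow_le_pow_right (by omega) h)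
    have key2 := total_le D2 (2 * n + 2) ((D2 + 1) ^ (2 * n + 2)) bb 0 Dg (2 ^ (K ^ 8))
      (by
        calc 2 = 2 ^ 1 := by norm_num
          _ ≤ _ := h2 _ _ (hone 8)) (hD2.trans (hmono 6 8 (by omega))) (hnX 8 (by omega)) hN2
      (hb.trans (hmono 2 8 (by omega))) (by simpa using Nat.one_le_two_pow)
      (hDg.trans (hXK 8 (by omega)))
    calc BdD D2 (2 * n + 2) (2 ^ bb) ^ Dg
        ≤ (2 ^ ((D2 + 1) ^ (2 * n + 2) * (D2 + 1) ^ (2 * n + 2) +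
            ((D2 + bb + 1) * (D2 * (2 * n + 2) + 1) + 1) * (D2 + 1) ^ (2 * n + 2))) ^ Dg :=
          Nat.pow_le_pow_left (BdD_le D2 (2 * n + 2) (2 ^ bb) bb le_rfl) _
      _ = 2 ^ (((D2 + 1) ^ (2 * n + 2) * (D2 + 1) ^ (2 * n + 2) +
            ((D2 + bb + 1) * (D2 * (2 * n + 2) + 1) + 1) * (D2 + 1) ^ (2 * n + 2)) * Dg) := by
          rw [← pow_mul]
      _ ≤ 2 ^ ((2 ^ (K ^ 8)) ^ 8) := h2 _ _ (by omega)
      _ = 2 ^ (2 ^ (8 * K ^ 8)) := by rw [← pow_mul, mul_comm]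
      _ ≤ 2 ^ (2 ^ (K ^ 9)) := h2 _ _ (h2 _ _ (hKp 8))
  · have e1 : 3 ≤ m0 := by
      rw [hm0']
      calc 3 ≤ 2 ^ 8 := by norm_num
        _ ≤ _ := h2 _ _ (by
          have := hone 4
          omega)
    calc m0 + 3 ≤ 2 * m0 := by omega
      _ = 2 ^ (8 * K ^ 4 + 1) := by rw [hm0', pow_succ]; ring
      _ ≤ 2 ^ (K ^ 9) := by
        refine h2 _ _ ?_
        have e2 : 8 * K ^ 4 ≤ K ^ 5 := hKp 4
        have e3 : 8 * K ^ 5 ≤ K ^ 6 := hKp 5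
        have e4 : K ^ 6 ≤ K ^ 9 := Nat.pow_le_pow_right (by omega) (by omega)
        have e5 := hone 5
        omega

end Pool.Agent.FrNar
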