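import Pool.Agent.FrNar.ElE
import Pool.Agent.FrNar.DicB
import Pool.Agent.FrMul.Num

/-! The separation of the values of a ratio of two coordinates on the zeros of a linear form on a
torsion coset, for unboundedly many coordinates. -/

set_option autoImplicit false

namespace Pool.Agent.FrNar

open Pool.Agent.MX Pool.Agent.RElim Complex

private theorem dib_coe {F : IntermediateField ℚ ℂ} {P : ℕ} (ζ : (Fin P → ℤ) → F)
    (g : Fin (P + P) → ℤ) : ((ζ2 ζ g : F) : ℂ) = ζ2 (fun g => (ζ g : ℂ)) g := by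
  unfold ζ2
  split_ifs
  · rfl
  · rfl

private theorem dib_S {P : ℕ} {S : Set (Fin P → ℤ)} {B : ℕ} (hS : ∀ g ∈ S, ∀ i, |g i| ≤ B)
    (g : Fin (P + P) → ℤ) (hg : g ∈ S2 S) (i : Fin (P + P)) : |g i| ≤ B := by
  have h0 : ∀ f : Fin P → ℤ, (f ∈ S ∨ f = 0) → ∀ j, |f j| ≤ B := by
    rintro f (hf | hf) j
    · exact hS f hf j
    · rw [hf, Pi.zero_apply, abs_zero]
      exact Int.natCast_nonneg B
  have h1 : fst' g ∈ S ∨ fst' g = 0 := by
    rcases hg with h | h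
    · exact Or.inl h.1
    · exact Or.inr h.1
  have h2 : snd' g ∈ S ∨ snd' g = 0 := by
    rcases hg with h | h
    · exact Or.inr h.2
    · exact Or.inl h.2
  induction i using Fin.addCases with
  | left j => exact h0 _ h1 j
  | right j => exact h0 _ h2 j

private theorem dib_ζ {F : IntermediateField ℚ ℂ} {P : ℕ} {S : Set (Fin P → ℤ)}
    {ζ : (Fin P → ℤ) → F} (hζ : ∀ g ∈ S, ∃ m : ℕ, 0 < m ∧ ζ g ^ m = 1)
    (g : Fin (P + P) → ℤ) (hg : g ∈ S2 S) : ∃ m : ℕ, 0 < m ∧ ζ2 ζ g ^ m = 1 := by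
  unfold ζ2
  split_ifs with h
  · rcases hg with h1 | h1
    · exact hζ _ h1.1
    · have h2 : fst' g = snd' g := by rw [h1.1, h]
      rw [h2]
      exact hζ _ h1.2
  · rcases hg with h1 | h1
    · exact absurd h1.2 h
    · exact hζ _ h1.2

private theorem dib_fX1 {F : IntermediateField ℚ ℂ} {P : ℕ} (E : ℕ) (c : Fin P → ℕ → F) (x : ℝ)
    (z : Fin (P + P) → ℂ) :
    fX E (Fin.addCases (motive := fun _ => ℕ → F) c (fun _ _ => 0)) x z = fX E c x (fst' z) := by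
  unfold fX
  rw [Fin.sum_univ_add]
  have h1 : ∑ i : Fin P, (∑ e ∈ Finset.range (E + 1),
      ((Fin.addCases (motive := fun _ => ℕ → F) c (fun _ _ => 0) (Fin.natAdd P i) e : F) : ℂ) *
        (x : ℂ) ^ e) * z (Fin.natAdd P i) = 0 := by
    refine Finset.sum_eq_zero fun i _ => ?_
    rw [Finset.sum_eq_zero, zero_mul]
    intro e _
    rw [Fin.addCases_right]
    simp
  rw [h1, add_zero]
  congr 1
  refine Finset.sum_congr rfl fun i _ => ?_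
  simp only [Fin.addCases_left]
  rfl

private theorem dib_fX2 {F : IntermediateField ℚ ℂ} {P : ℕ} (E : ℕ) (c : Fin P → ℕ → F) (x : ℝ)
    (z : Fin (P + P) → ℂ) :
    fX E (Fin.addCases (motive := fun _ => ℕ → F) (fun _ _ => 0) c) x z = fX E c x (snd' z) := by
  unfold fX
  rw [Fin.sum_univ_add]
  have h1 : ∑ i : Fin P, (∑ e ∈ Finset.range (E + 1),
      ((Fin.addCases (motive := fun _ => ℕ → F) (fun _ _ => 0) c (Fin.castAdd P i) e : F) : ℂ) *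
        (x : ℂ) ^ e) * z (Fin.castAdd P i) = 0 := by
    refine Finset.sum_eq_zero fun i _ => ?_
    rw [Finset.sum_eq_zero, zero_mul]
    intro e _
    rw [Fin.addCases_left]
    simp
  rw [h1, zero_add]
  congr 1
  refine Finset.sum_congr rfl fun i _ => ?_
  simp only [Fin.addCases_right]
  rfl

private theorem dib_dist (a b c d : ℂ) (hb : ‖b‖ = 1) (hd : ‖d‖ = 1) :
    ‖a * d - c * b‖ = ‖a / b - c / d‖ := by
  have hb0 : b ≠ 0 := fun h => by rw [h, norm_zero] at hb; exact zero_ne_one hb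
  have hd0 : d ≠ 0 := fun h => by rw [h, norm_zero] at hd; exact zero_ne_one hd
  have h1 : a / b - c / d = (a * d - c * b) / (b * d) := by
    field_simp
  rw [h1, norm_div, norm_mul, hb, hd, mul_one, div_one]

/-- a positive lower bound of the positive distances of the elements of a finite set -/
private theorem dib_min (U : Set ℂ) (hU : U.Finite) : ∃ m : ℝ, 0 < m ∧ ∀ u ∈ U, ∀ u' ∈ U,
    0 < ‖u - u'‖ ^ 2 → m ≤ ‖u - u'‖ ^ 2 := by
  have hV : (((fun p : ℂ × ℂ => ‖p.1 - p.2‖ ^ 2) '' (U ×ˢ U)) ∩ {t : ℝ | 0 < t}).Finite :=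
    ((hU.prod hU).image _).inter_of_left _
  rcases Set.eq_empty_or_nonempty
    (((fun p : ℂ × ℂ => ‖p.1 - p.2‖ ^ 2) '' (U ×ˢ U)) ∩ {t : ℝ | 0 < t}) with h | h
  · refine ⟨1, one_pos, fun u hu u' hu' h1 => ?_⟩
    exfalso
    have h2 : ‖u - u'‖ ^ 2 ∈
        ((fun p : ℂ × ℂ => ‖p.1 - p.2‖ ^ 2) '' (U ×ˢ U)) ∩ {t : ℝ | 0 < t} :=
      ⟨⟨(u, u'), ⟨hu, hu'⟩, rfl⟩, h1⟩
    rw [h] at h2
    exact h2
  · obtain ⟨m, hm, hmin⟩ := Set.exists_min_image _ id hV h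
    refine ⟨m, hm.2, fun u hu u' hu' h1 => ?_⟩
    exact hmin _ ⟨⟨(u, u'), ⟨hu, hu'⟩, rfl⟩, h1⟩

/-- **Separation on a coset, unboundedly many coordinates**: as `sep_coset` (`FrNar/Dic.lean`), with
the bounds of `num_big`. -/
theorem sep_big (F : IntermediateField ℚ ℂ) [FiniteDimensional ℚ F]
    (hconj : ∀ z ∈ F, (starRingEnd ℂ) z ∈ F) (hI : I ∈ F) (K P B E Dg Hc D0 : ℕ) (hK : 8 ≤ K)
    (hP : P ≤ K) (hB : B ≤ 2 ^ K) (hE : E ≤ 2 ^ K) (hDgK : Dg ≤ 2 ^ K) (hHc : Hc ≤ 2 ^ K)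
    (hDg : Module.finrank ℚ F ≤ Dg) (hD0 : 0 < D0) (hD0' : D0 ≤ 2 ^ Hc) (c : Fin P → ℕ → F)
    (hcI : ∀ i, ∀ e ≤ E, IsIntegral ℤ ((D0 : ℂ) * (c i e : ℂ)))
    (hcb : ∀ i, ∀ e ≤ E, ∀ φ : F →ₐ[ℚ] ℂ, ‖φ (c i e)‖ ≤ 2 ^ Hc) (S : Set (Fin P → ℤ))
    (hS : ∀ g ∈ S, ∀ i, |g i| ≤ B) (ζ : (Fin P → ℤ) → F)
    (hζ : ∀ g ∈ S, ∃ m : ℕ, 0 < m ∧ ζ g ^ m = 1) (a b : Fin P)
    (hfin : ∀ X : ℝ, ∃ x : ℝ, X < x ∧ {u : ℂ | ∃ z : Fin P → ℂ, (∀ i, ‖z i‖ = 1) ∧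
      (∀ g ∈ S, ∏ i, z i ^ g i = (ζ g : ℂ)) ∧ fX E c x z = 0 ∧ z a / z b = u}.Finite)
    (x : ℝ) (hx : 2 ^ (2 ^ (K ^ 9)) < x) (z z' : Fin P → ℂ) (hz : ∀ i, ‖z i‖ = 1)
    (hz2 : ∀ g ∈ S, ∏ i, z i ^ g i = (ζ g : ℂ)) (hz0 : fX E c x z = 0) (hz' : ∀ i, ‖z' i‖ = 1)
    (hz2' : ∀ g ∈ S, ∏ i, z' i ^ g i = (ζ g : ℂ)) (hz0' : fX E c x z' = 0)
    (hne : z a / z b ≠ z' a / z' b) :
    1 ≤ x ^ (2 ^ (K ^ 9)) * ‖z a / z b - z' a / z' b‖ := by
  obtain ⟨n, hn⟩ : ∃ n : ℕ, n = P + P := ⟨_, rfl⟩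
  obtain ⟨m0, hb0, hb1', hq3⟩ := num_big K n B E Dg Hc hK (by omega) hB hE hDgK hHc
  have hb1 : (BdD (4 * (n * B + E + (m0 + 2) + 3)) (2 * n + 2) (szB n B E Hc) : ℝ) ^ Dg < x := by
    have h3 : ((BdD (4 * (n * B + E + (m0 + 2) + 3)) (2 * n + 2) (szB n B E Hc) : ℕ) : ℝ) ^ Dg ≤
        2 ^ (2 ^ (K ^ 9)) := by
      exact_mod_cast hb1'
    exact lt_of_le_of_lt h3 hx
  subst hn
  obtain ⟨Δ, hΔ1, hΔ2, hΔ3⟩ := exists_quad F (Fin.castAdd P a) (Fin.natAdd P b)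
    (Fin.natAdd P a) (Fin.castAdd P b)
  obtain ⟨δ, hδ⟩ : ∃ δ : (Fin (P + P) → ℂ) → ℝ, δ = fun z => ‖z (Fin.castAdd P a) *
      z (Fin.natAdd P b) - z (Fin.natAdd P a) * z (Fin.castAdd P b)‖ ^ 2 := ⟨_, rfl⟩
  have hδz : ∀ w : Fin (P + P) → ℂ, (∀ i, ‖w i‖ = 1) →
      δ w = ‖fst' w a / fst' w b - snd' w a / snd' w b‖ ^ 2 := by
    intro w hw
    rw [hδ]
    show ‖fst' w a * snd' w b - snd' w a * fst' w b‖ ^ 2 = _
    have hb : ‖fst' w b‖ = 1 := hw (Fin.castAdd P b)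
    have hb' : ‖snd' w b‖ = 1 := hw (Fin.natAdd P b)
    rw [dib_dist _ _ _ _ hb hb']
  have hrel : ∀ w : Fin (P + P) → ℂ, (∀ g ∈ S2 S, ∏ i, w i ^ g i = ((ζ2 ζ g : F) : ℂ)) ↔
      (∀ g ∈ S, ∏ i, fst' w i ^ g i = (ζ g : ℂ)) ∧ (∀ g ∈ S, ∏ i, snd' w i ^ g i = (ζ g : ℂ)) := by
    intro w
    rw [← rel_S2 S (fun g => (ζ g : ℂ)) w]
    simp only [dib_coe]
  have hzero : ∀ φ : F →ₐ[ℚ] ℂ, ‖φ (0 : F)‖ ≤ 2 ^ Hc := by
    intro φ
    rw [map_zero, norm_zero]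
    positivity
  have hint : IsIntegral ℤ ((D0 : ℂ) * ((0 : F) : ℂ)) := by
    simpa using (isIntegral_zero (R := ℤ) (B := ℂ))
  have key := sep_gen F hconj hI (P + P) B E Dg Hc D0 hDg hD0 hD0'
    (Fin.addCases (motive := fun _ => ℕ → F) c (fun _ _ => 0))
    (Fin.addCases (motive := fun _ => ℕ → F) (fun _ _ => 0) c)
    (by
      intro i e he
      induction i using Fin.addCases with
      | left j => rw [Fin.addCases_left]; exact hcI j e he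
      | right j => rw [Fin.addCases_right]; exact hint)
    (by
      intro i e he
      induction i using Fin.addCases with
      | left j => rw [Fin.addCases_left]; exact hcb j e he
      | right j => rw [Fin.addCases_right]; exact hzero)
    (by
      intro i e he
      induction i using Fin.addCases with
      | left j => rw [Fin.addCases_left]; exact hint
      | right j => rw [Fin.addCases_right]; exact hcI j e he)
    (by
      intro i e he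
      induction i using Fin.addCases with
      | left j => rw [Fin.addCases_left]; exact hzero
      | right j => rw [Fin.addCases_right]; exact hcb j e he)
    (S2 S) (dib_S hS) (ζ2 ζ) (dib_ζ hζ) Δ hΔ1 hΔ2 δ (fun v => by rw [hΔ3 v, hδ]) m0 hb0
    (by
      intro X
      obtain ⟨x1, hx1, hU⟩ := hfin X
      obtain ⟨m, hm, hmin⟩ := dib_min _ hU
      refine ⟨x1, hx1, m, hm, fun w hw hw2 h1 h2 hpos => ?_⟩
      rw [hδz w hw] at hpos ⊢
      rw [hrel] at hw2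
      rw [dib_fX1] at h1
      rw [dib_fX2] at h2
      exact hmin _ ⟨fst' w, fun i => hw _, hw2.1, h1, rfl⟩ _
        ⟨snd' w, fun i => hw _, hw2.2, h2, rfl⟩ hpos)
    x hb1 (Fin.addCases (motive := fun _ => ℂ) z z')
  have hf : fst' (Fin.addCases (motive := fun _ => ℂ) z z') = z := by
    funext i
    exact Fin.addCases_left i
  have hs' : snd' (Fin.addCases (motive := fun _ => ℂ) z z') = z' := by
    funext i
    exact Fin.addCases_right i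
  have hnorm : ∀ i, ‖Fin.addCases (motive := fun _ => ℂ) z z' i‖ = 1 := by
    intro i
    induction i using Fin.addCases with
    | left j => rw [Fin.addCases_left]; exact hz j
    | right j => rw [Fin.addCases_right]; exact hz' j
  obtain ⟨d, hd⟩ : ∃ d : ℝ, d = ‖z a / z b - z' a / z' b‖ := ⟨_, rfl⟩
  have hd0 : 0 < d := by
    rw [hd]
    exact norm_pos_iff.2 (sub_ne_zero.2 hne)
  have hδd : δ (Fin.addCases (motive := fun _ => ℂ) z z') = d ^ 2 := by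
    rw [hδz _ hnorm, hf, hs', hd]
  have hfin2 := key hnorm (by rw [hrel, hf, hs']; exact ⟨hz2, hz2'⟩)
    (by rw [dib_fX1, hf]; exact hz0) (by rw [dib_fX2, hs']; exact hz0')
    (by rw [hδd]; positivity)
  rw [hδd] at hfin2
  have hd2 : d ≤ 2 := by
    rw [hd]
    refine (norm_sub_le _ _).trans ?_
    rw [norm_div, norm_div, hz a, hz b, hz' a, hz' b]
    norm_num
  have hK1 : 1 ≤ 2 ^ (K ^ 9) := Nat.one_le_two_pow
  have hx2 : 2 ≤ x := by
    have h1 : (2 : ℝ) ^ 1 ≤ 2 ^ (2 ^ (K ^ 9)) := pow_le_pow_right₀ (by norm_num) hK1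
    rw [pow_one] at h1
    exact h1.trans hx.le
  rw [← hd]
  have hxp : 0 < x ^ (m0 + 2) := pow_pos (by linarith) _
  calc (1 : ℝ) ≤ x ^ (m0 + 2) * d ^ 2 := hfin2.le
    _ = x ^ (m0 + 2) * d * d := by ring
    _ ≤ x ^ (m0 + 2) * d * x :=
        mul_le_mul_of_nonneg_left (hd2.trans hx2) (mul_pos hxp hd0).le
    _ = x ^ (m0 + 3) * d := by ring
    _ ≤ x ^ (2 ^ (K ^ 9)) * d :=
        mul_le_mul_of_nonneg_right (pow_le_pow_right₀ (by linarith) hq3) hd0.le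

end Pool.Agent.FrNar
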