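import Pool.Agent.FrMul.Model
import Pool.Agent.FrMul.Sep

/-! Separation of the ratios at the zeros of the level functions: thresholds for all circles, and circles
with simple roots only. -/

set_option autoImplicit false

namespace Pool.Agent.FrNar

open Finset Complex Polynomial
open Pool.Agent.DD7719 Pool.Agent.DD7719.M Pool.Agent.DD7719.M.GS Pool.Agent.MX Pool.Agent.FrUP

/-- **Separation on all circles**, beyond doubly exponential points. -/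
theorem sepBig : ∃ E : ℕ, ∀ (k L : ℕ) (_ : k ≤ L) (num numu : ℕ → ℤ)
    (den denu : ℕ → ℕ) (_ : ∀ t, t < k → 0 < den t) (_ : ∀ t, t < k → 0 < denu t)
    (_ : ∀ t, t < k → (num t).natAbs ≤ 2 ^ L) (_ : ∀ t, t < k → den t ≤ 2 ^ L)
    (_ : ∀ t, t < k → (numu t).natAbs ≤ 2 ^ L) (_ : ∀ t, t < k → denu t ≤ 2 ^ L)
    (a u : ℕ → ℝ) (_ : ∀ t, t < k → a t = (num t : ℝ) / (den t : ℝ))
    (_ : ∀ t, t < k → u t = (numu t : ℝ) / (denu t : ℝ))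
    (l c : ℕ → ℂ) (ex : ℕ → ℕ) (_ : RootData k a u l c ex)
    (R M Nb : ℕ) (ε δ : ℝ) (v : ℕ → ℝ)
    (_ : GoodD k (fun i => l i) (fun i => c i) (fun i => ex i) R M ε δ v) (_ : 1 ≤ M)
    (_ : M ≤ 2 ^ pbm L) (_ : Nb ≤ 2 ^ pbn L) (n0 j : ℕ) (_ : k ≤ j) (ρ : ℝ) (_ : 0 < ρ)
    (A H : Fin k → Fin k → ℤ) (D : ℤ) (s' : ℕ) (w : Fin k → Fin k → ℝ)
    (τ : Fin k → ℝ) (d : ℕ)
    (_ : BaseF k (fun i => l i) (fun i => c i) (fun i => ex i) M Nb ε δ n0 j A H D s' w τ ρ d)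
    (i1 i2 : Fin k)
    (_ : ∀ X : ℝ, ∃ x : ℝ, X < x ∧ ((fun z : Fin k → ℂ => Wt A s' z i1 / Wt A s' z i2) ''
      {z | (∀ t, ‖z t‖ = 1) ∧ (LevX (fun i : Fin k => l i) (fun i => c i) (fun i => ex i)
        A s' j ρ x z).re = 0}).Finite)
    (x : ℝ) (_ : 2 ^ (2 ^ ((2 + L) ^ E)) < x) (z z' : Fin k → ℂ) (_ : ∀ t, ‖z t‖ = 1)
    (_ : (LevX (fun i : Fin k => l i) (fun i => c i) (fun i => ex i) A s' j ρ x z).re = 0)
    (_ : ∀ t, ‖z' t‖ = 1)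
    (_ : (LevX (fun i : Fin k => l i) (fun i => c i) (fun i => ex i) A s' j ρ x z').re = 0)
    (_ : Wt A s' z i1 / Wt A s' z i2 ≠ Wt A s' z' i1 / Wt A s' z' i2),
    1 ≤ x ^ (2 ^ ((2 + L) ^ E)) *
      ‖Wt A s' z i1 / Wt A s' z i2 - Wt A s' z' i1 / Wt A s' z' i2‖ := by
  obtain ⟨E1, hE1⟩ := big_model
  refine ⟨E1 * 9, ?_⟩
  intro k L hkL num numu den denu h1 h2 h3 h4 h5 h6 a u h7 h8 l c ex hRD R M Nb ε δ v hG hM1 hM2 hNb
    n0 j hkj ρ hρ A H D s' w τ d hBase i1 i2 hfin x hx z z' hz hz0 hz' hz0' hne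
  obtain ⟨F, hFD, P, B, Dg, Hc, D0, cc, S, ζ, a', b', W, hconj, hI, hK, hP, hB, hkK, hDgK, hHc, hDg,
    hD0, hD0', hint, hbnd, hS, hζ, hW, hsurj⟩ := hE1 k L hkL num numu den denu h1 h2 h3 h4 h5 h6 a u
      h7 h8 l c ex hRD R M Nb ε δ v hG hM1 hM2 hNb n0 j hkj ρ hρ A H D s' w τ d hBase i1 i2
  have hpow : ((2 + L) ^ E1) ^ 9 = (2 + L) ^ (E1 * 9) := by rw [pow_mul]
  have hfin' : ∀ X : ℝ, ∃ x : ℝ, X < x ∧ {u : ℂ | ∃ z : Fin P → ℂ, (∀ i, ‖z i‖ = 1) ∧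
      (∀ g ∈ S, ∏ i, z i ^ g i = (ζ g : ℂ)) ∧ fX k cc x z = 0 ∧ z a' / z b' = u}.Finite := by
    intro X
    obtain ⟨x1, hx1, hU⟩ := hfin X
    refine ⟨x1, hx1, hU.subset ?_⟩
    rintro _ ⟨q, hq1, hq2, hq3, rfl⟩
    obtain ⟨p, hp1, rfl⟩ := hsurj q hq1 hq2
    refine ⟨p, ⟨hp1, ?_⟩, ?_⟩
    · rw [(hW p hp1).2.2.1 x1]
      exact hq3
    · exact ((hW p hp1).2.2.2).symm
  have key := sep_big F hconj hI ((2 + L) ^ E1) P B k Dg Hc D0 hK hP hB hkK hDgK hHc hDg hD0 hD0' cc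
    (fun i e _ => hint i e) (fun i e _ => hbnd i e) S hS ζ hζ a' b' hfin' x (by rw [hpow]; exact hx)
    (W z) (W z') (hW z hz).1 (hW z hz).2.1 (by rw [← (hW z hz).2.2.1 x]; exact hz0) (hW z' hz').1
    (hW z' hz').2.1 (by rw [← (hW z' hz').2.2.1 x]; exact hz0') (by
      rw [(hW z hz).2.2.2, (hW z' hz').2.2.2]
      exact hne)
  rw [(hW z hz).2.2.2, (hW z' hz').2.2.2, hpow] at key
  exact key

/-- On a circle with simple roots only the level function does not depend on the point. -/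
theorem levX_const {k : ℕ} (l c : Fin k → ℂ) (ex : Fin k → ℕ) (A : Fin k → Fin k → ℤ) (s j : ℕ)
    (ρ : ℝ) (hsim : ∀ i, ‖l i‖ = ρ → ex i = 0) (x x' : ℝ) (z : Fin k → ℂ) :
    LevX l c ex A s j ρ x z = LevX l c ex A s j ρ x' z := by
  unfold LevX
  refine Finset.sum_congr rfl fun i _ => ?_
  split_ifs with h
  · rw [hsim i h]
    simp [bc]
  · rfl

/-- If the roots with the same power are simple, the coefficient polynomial is constant. -/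
theorem gP_const {k : ℕ} (l c : Fin k → ℂ) (ex : Fin k → ℕ) (n0 j : ℕ) (X : ℂ)
    (hsim : ∀ i, l i ^ n0 = X → ex i = 0) (y : ℂ) (h : (gP l c ex n0 j X).eval y = 0) :
    gP l c ex n0 j X = 0 := by
  classical
  have h1 : gP l c ex n0 j X = C (∑ i with l i ^ n0 = X, c i * l i ^ j) := by
    rw [gP, map_sum]
    refine Finset.sum_congr rfl fun i hi => ?_
    rw [hsim i (Finset.mem_filter.1 hi).2]
    simp [bcP]
  rw [h1, eval_C] at h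
  rw [h1, h, map_zero]

/-- **Separation on circles with simple roots only.** -/
theorem sepSim : ∃ E : ℕ, ∀ (k L : ℕ) (_ : k ≤ L) (num numu : ℕ → ℤ)
    (den denu : ℕ → ℕ) (_ : ∀ t, t < k → 0 < den t) (_ : ∀ t, t < k → 0 < denu t)
    (_ : ∀ t, t < k → (num t).natAbs ≤ 2 ^ L) (_ : ∀ t, t < k → den t ≤ 2 ^ L)
    (_ : ∀ t, t < k → (numu t).natAbs ≤ 2 ^ L) (_ : ∀ t, t < k → denu t ≤ 2 ^ L)
    (a u : ℕ → ℝ) (_ : ∀ t, t < k → a t = (num t : ℝ) / (den t : ℝ))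
    (_ : ∀ t, t < k → u t = (numu t : ℝ) / (denu t : ℝ))
    (l c : ℕ → ℂ) (ex : ℕ → ℕ) (_ : RootData k a u l c ex)
    (R M Nb : ℕ) (ε δ : ℝ) (v : ℕ → ℝ)
    (_ : GoodD k (fun i => l i) (fun i => c i) (fun i => ex i) R M ε δ v) (_ : 1 ≤ M)
    (_ : M ≤ 2 ^ pbm L) (_ : Nb ≤ 2 ^ pbn L) (n0 j : ℕ) (_ : k ≤ j) (ρ : ℝ) (_ : 0 < ρ)
    (A H : Fin k → Fin k → ℤ) (D : ℤ) (s' : ℕ) (w : Fin k → Fin k → ℝ)
    (τ : Fin k → ℝ) (d : ℕ)
    (_ : BaseF k (fun i => l i) (fun i => c i) (fun i => ex i) M Nb ε δ n0 j A H D s' w τ ρ d)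
    (i1 i2 : Fin k) (_ : ∀ i : Fin k, ‖l i‖ = ρ → ex i = 0) (x0 : ℝ)
    (_ : ((fun z : Fin k → ℂ => Wt A s' z i1 / Wt A s' z i2) ''
      {z | (∀ t, ‖z t‖ = 1) ∧ (LevX (fun i : Fin k => l i) (fun i => c i) (fun i => ex i)
        A s' j ρ x0 z).re = 0}).Finite)
    (x : ℝ) (_ : 2 ≤ x) (z z' : Fin k → ℂ) (_ : ∀ t, ‖z t‖ = 1)
    (_ : (LevX (fun i : Fin k => l i) (fun i => c i) (fun i => ex i) A s' j ρ x z).re = 0)
    (_ : ∀ t, ‖z' t‖ = 1)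
    (_ : (LevX (fun i : Fin k => l i) (fun i => c i) (fun i => ex i) A s' j ρ x z').re = 0)
    (_ : Wt A s' z i1 / Wt A s' z i2 ≠ Wt A s' z' i1 / Wt A s' z' i2),
    1 ≤ x ^ (2 ^ ((2 + L) ^ E)) *
      ‖Wt A s' z i1 / Wt A s' z i2 - Wt A s' z' i1 / Wt A s' z' i2‖ := by
  obtain ⟨E1, hE1⟩ := sepBig
  refine ⟨E1 + 2, ?_⟩
  intro k L hkL num numu den denu h1 h2 h3 h4 h5 h6 a u h7 h8 l c ex hRD R M Nb ε δ v hG hM1 hM2 hNb
    n0 j hkj ρ hρ A H D s' w τ d hBase i1 i2 hsim x0 hfin x hx z z' hz hz0 hz' hz0' hne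
  have hc : ∀ (x x' : ℝ) (z : Fin k → ℂ), LevX (fun i : Fin k => l i) (fun i => c i)
      (fun i => ex i) A s' j ρ x z = LevX (fun i : Fin k => l i) (fun i => c i)
      (fun i => ex i) A s' j ρ x' z := levX_const _ _ _ A s' j ρ hsim
  obtain ⟨T, hT⟩ : ∃ T : ℕ, T = 2 ^ ((2 + L) ^ E1) := ⟨_, rfl⟩
  obtain ⟨x1, hx1⟩ : ∃ x1 : ℝ, x1 = 2 ^ (T + 1) := ⟨_, rfl⟩
  have key := hE1 k L hkL num numu den denu h1 h2 h3 h4 h5 h6 a u h7 h8 l c ex hRD R M Nb ε δ v hG hM1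
    hM2 hNb n0 j hkj ρ hρ A H D s' w τ d hBase i1 i2 (fun X => ⟨X + 1, by linarith, by
      simp only [hc (X + 1) x0]
      exact hfin⟩) x1 (by
        rw [← hT, hx1]
        exact pow_lt_pow_right₀ (by norm_num) (by omega)) z z' hz (by rw [hc x1 x]; exact hz0) hz'
    (by rw [hc x1 x]; exact hz0') hne
  refine key.trans (mul_le_mul_of_nonneg_right ?_ (norm_nonneg _))
  rw [hx1, ← hT, ← pow_mul]
  have h9 : (T + 1) * T ≤ 2 ^ ((2 + L) ^ (E1 + 2)) := by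
    have h10 : 1 ≤ T := by
      rw [hT]
      exact Nat.one_le_two_pow
    calc (T + 1) * T ≤ (T * 2) * T := Nat.mul_le_mul_right _ (by omega)
      _ = 2 ^ ((2 + L) ^ E1 + 1 + (2 + L) ^ E1) := by rw [pow_add, pow_succ, ← hT]
      _ ≤ 2 ^ ((2 + L) ^ (E1 + 2)) := by
        refine Nat.pow_le_pow_right (by norm_num) ?_
        have h11 : 1 ≤ (2 + L) ^ E1 := Nat.one_le_pow _ _ (by omega)
        have h12 : (2 + L) ^ (E1 + 2) = (2 + L) ^ E1 * ((2 + L) * (2 + L)) := by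
          rw [pow_add, pow_two]
        have h13 : 2 * 2 ≤ (2 + L) * (2 + L) :=
          Nat.mul_le_mul (Nat.le_add_right 2 L) (Nat.le_add_right 2 L)
        have h14 : (2 + L) ^ E1 * (2 * 2) ≤ (2 + L) ^ E1 * ((2 + L) * (2 + L)) :=
          Nat.mul_le_mul_left _ h13
        omega
  calc (2 : ℝ) ^ ((T + 1) * T) ≤ 2 ^ (2 ^ ((2 + L) ^ (E1 + 2))) :=
        pow_le_pow_right₀ (by norm_num) h9
    _ ≤ x ^ (2 ^ ((2 + L) ^ (E1 + 2))) := pow_le_pow_left₀ (by norm_num) hx _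

end Pool.Agent.FrNar
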