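import Pool.Agent.FrMul.Iff
import Pool.Agent.FrMul.SepX

/-! The thresholds for instances with few roots on the circles which contain a multiple root. -/

set_option autoImplicit false

namespace Pool.Agent.UltPos

open Pool.Agent.PT Pool.Agent.AllR Pool.Agent.DD7719.M Pool.Agent.DD7719 Finset Pool.Agent.FrUP
open Pool.Agent.FrNar

/-- `2 ^ ((2 + L) ^ E)` is a threshold for the nonnegativity of the level functions of the frozen
sequences of frozen positive instances with at most `s` roots on each circle with a multiple root, for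
the roots of their coefficient polynomials, for the zeros of the level functions, and for the separation
of the ratios at the zeros (with a doubly exponential bound). -/
def ThrM (s E : ℕ) : Prop := ∀ (I : Inst) (L : ℕ) (_ : I.k ≤ L)
    (_ : ∀ i, (I.aNum i).natAbs ≤ 2 ^ L ∧ I.aDen i ≤ 2 ^ L)
    (_ : ∀ i, (I.uNum i).natAbs ≤ 2 ^ L ∧ I.uDen i ≤ 2 ^ L) (aR uR : ℕ → ℝ)
    (_ : ∀ t (h : t < I.k), aR t = (I.a ⟨t, h⟩ : ℝ))
    (_ : ∀ t (h : t < I.k), uR t = (I.u ⟨t, h⟩ : ℝ))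
    (v : ℕ → ℚ) (_ : I.IsSeq v) (_ : I.FrozenPositive) (_ : I.AtMostWithMultiple s)
    (l c : ℕ → ℂ) (ex : ℕ → ℕ) (_ : RootData I.k aR uR l c ex) (n0 j : ℕ) (_ : 0 < n0)
    (_ : I.k ≤ j) (x : ℝ) (_ : 2 ^ ((2 + L) ^ E) < x),
    (∀ i : Fin I.k, (gP (fun i : Fin I.k => l i) (fun i => c i) (fun i => ex i) n0 j
        (l i ^ n0)).eval (x : ℂ) = 0 →
      gP (fun i : Fin I.k => l i) (fun i => c i) (fun i => ex i) n0 j (l i ^ n0) = 0) ∧
    ∀ (ρ : ℝ) (_ : 0 < ρ) (M Nb : ℕ) (A H : Fin I.k → Fin I.k → ℤ) (D : ℤ) (s' : ℕ)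
      (w : Fin I.k → Fin I.k → ℝ) (τ : Fin I.k → ℝ) (d : ℕ) (_ : 1 ≤ M) (_ : M ≤ 2 ^ pbm L) (_ : Nb ≤ 2 ^ pbn L)
      (_ : BaseF I.k (fun i => l i) (fun i => c i) (fun i => ex i) M Nb
        (2 / ((2 ^ pq L : ℕ) : ℝ)) (1 / 2 ^ pdl L) n0 j A H D s' w τ ρ d),
      ((∀ i : Fin I.k, ρ < ‖l i‖ →
          gP (fun i : Fin I.k => l i) (fun i => c i) (fun i => ex i) n0 j (l i ^ n0) = 0) →
        ∀ z : Fin I.k → ℂ, (∀ t, ‖z t‖ = 1) →
          0 ≤ (LevX (fun i : Fin I.k => l i) (fun i => c i) (fun i => ex i) A s' j ρ x z).re) ∧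
      ∀ y : Fin I.k → ℝ, Rep (fun i : Fin I.k => l i) n0 A s' y →
        ((∀ X : ℝ, ∃ t : ℝ, X < t ∧ ∀ z : Fin I.k → ℂ, (∀ t, ‖z t‖ = 1) →
            (LevX (fun i : Fin I.k => l i) (fun i => c i) (fun i => ex i) A s' j ρ t z).re ≠ 0) →
          ∀ z : Fin I.k → ℂ, (∀ t, ‖z t‖ = 1) →
            (LevX (fun i : Fin I.k => l i) (fun i => c i) (fun i => ex i) A s' j ρ x z).re ≠ 0) ∧
        ∀ i1 i2 : Fin I.k, l i1 ≠ 0 → l i2 ≠ 0 →
          (∀ X : ℝ, ∃ t : ℝ, X < t ∧ ((fun z : Fin I.k → ℂ => Wt A s' z i1 / Wt A s' z i2) ''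
            {z | (∀ t, ‖z t‖ = 1) ∧ (LevX (fun i : Fin I.k => l i) (fun i => c i)
              (fun i => ex i) A s' j ρ t z).re = 0}).Finite) →
          ∀ z z' : Fin I.k → ℂ, (∀ t, ‖z t‖ = 1) →
            (LevX (fun i : Fin I.k => l i) (fun i => c i) (fun i => ex i) A s' j ρ x z).re = 0 →
            (∀ t, ‖z' t‖ = 1) →
            (LevX (fun i : Fin I.k => l i) (fun i => c i) (fun i => ex i) A s' j ρ x z').re = 0 →
            Wt A s' z i1 / Wt A s' z i2 ≠ Wt A s' z' i1 / Wt A s' z' i2 →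
            1 ≤ x ^ (2 ^ ((2 + L) ^ E)) *
              ‖Wt A s' z i1 / Wt A s' z i2 - Wt A s' z' i1 / Wt A s' z' i2‖

/-- PROOF: as `exists_thrN` (`FrNar/ThrN.lean`) on the circles with at most `s` roots; on the others
(`Inst.circle_alt`) all roots are simple, so nothing depends on the point (`levX_const`, `gP_const`), and the
separation is `sepSim`. -/
theorem exists_thrM (s : ℕ) : ∃ E : ℕ, ThrM s E := by
  classical
  obtain ⟨E1, hE1⟩ := early s
  obtain ⟨E2, hE2⟩ := root_bound s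
  obtain ⟨E3, hE3⟩ := Pool.Agent.FrNar.zeroThr s
  obtain ⟨E4, hE4⟩ := Pool.Agent.FrNar.sepThr s
  obtain ⟨E5, hE5⟩ := Pool.Agent.FrNar.sepSim
  refine ⟨E1 + E2 + E3 + E4 + E5, ?_⟩
  intro I L hkL hb hbu aR uR ha hu v hv hfp h8 l c ex hrd n0 j hn0 hj x hx
  have hx1 : (2 : ℝ) ^ ((2 + L) ^ E1) < x := lt_of_le_of_lt
    (pow_le_pow_right₀ (by norm_num) (Nat.pow_le_pow_right (by omega) (by omega))) hx
  have hx2 : (2 : ℝ) ^ ((2 + L) ^ E2) < x := lt_of_le_of_lt
    (pow_le_pow_right₀ (by norm_num) (Nat.pow_le_pow_right (by omega) (by omega))) hx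
  have hx3 : (2 : ℝ) ^ ((2 + L) ^ E3) < x := lt_of_le_of_lt
    (pow_le_pow_right₀ (by norm_num) (Nat.pow_le_pow_right (by omega) (by omega))) hx
  have hx4 : (2 : ℝ) ^ ((2 + L) ^ E4) < x := lt_of_le_of_lt
    (pow_le_pow_right₀ (by norm_num) (Nat.pow_le_pow_right (by omega) (by omega))) hx
  have hx0 : (1 : ℝ) ≤ x := (one_le_pow₀ (by norm_num)).trans hx1.le
  have hx02 : (2 : ℝ) ≤ x := by
    have h1 : 1 ≤ (2 + L) ^ E1 := Nat.one_le_pow _ _ (by omega)
    have h2 : (2 : ℝ) ^ 1 ≤ 2 ^ ((2 + L) ^ E1) := pow_le_pow_right₀ (by norm_num) h1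
    rw [pow_one] at h2
    exact h2.trans hx1.le
  have hnumu : ∀ t, t < I.k →
      ((if h : t < I.k then I.uNum ⟨t, h⟩ else 0 : ℤ)).natAbs ≤ 2 ^ L := by
    intro t ht
    simp only [ht, dif_pos]
    exact (hbu _).1
  have hdenu : ∀ t, t < I.k → (if h : t < I.k then I.uDen ⟨t, h⟩ else 1 : ℕ) ≤ 2 ^ L := by
    intro t ht
    simp only [ht, dif_pos]
    exact (hbu _).2
  have hdenu0 : ∀ t, t < I.k → 0 < (if h : t < I.k then I.uDen ⟨t, h⟩ else 1 : ℕ) := by
    intro t ht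
    simp only [ht, dif_pos]
    exact I.uDen_pos _
  have hA : ∀ t, t < I.k → aR t = (I.num t : ℝ) / (I.den t : ℝ) := by
    intro t ht
    rw [ha t ht]
    simp only [Inst.num, Inst.den, ht, dif_pos, Inst.a]
    push_cast
    rfl
  have hU : ∀ t, t < I.k → uR t = ((if h : t < I.k then I.uNum ⟨t, h⟩ else 0 : ℤ) : ℝ) /
      ((if h : t < I.k then I.uDen ⟨t, h⟩ else 1 : ℕ) : ℝ) := by
    intro t ht
    rw [hu t ht]
    simp only [ht, dif_pos, Inst.u]
    push_cast
    rfl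
  have hgood := I.goodD L hkL hb aR uR ha hu v hv hrd
  constructor
  · intro i hev
    by_contra hne
    by_cases hli : l i = 0
    · apply hne
      rw [gP]
      refine Finset.sum_eq_zero fun i' hi' => ?_
      have h1 : l i' ^ n0 = l i ^ n0 := (Finset.mem_filter.1 hi').2
      rw [hli, zero_pow hn0.ne'] at h1
      have h2 : l i' = 0 := pow_eq_zero_iff hn0.ne' |>.1 h1
      have h3 := hrd.1 i' i'.2
      rw [h2, zero_pow (by omega), mul_zero, Polynomial.C_0, zero_mul]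
    · rcases I.circle_alt s aR uR ha h8 hrd ‖l i‖ with hsim | hcard
      · refine hne (gP_const _ _ _ n0 j _ (fun i' hi' => hsim i' ?_) _ hev)
        exact GS.norm_eq_of_pow_eq hn0 hi'
      · exact hE2 I.k L hkL I.num (fun t => if h : t < I.k then I.uNum ⟨t, h⟩ else 0) I.den
          (fun t => if h : t < I.k then I.uDen ⟨t, h⟩ else 1) I.den_pos' hdenu0
          (I.num_le' L hb) (I.den_le' L hb) hnumu hdenu aR uR hA hU l c ex hrd n0 j hn0 hj i hli
          hcard hne x hx2 hev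
  · intro ρ hρ M Nb A H D s' w τ d hM1 hM2 hNb hbase
    have hg := hgood.mono (M' := M) hM1 hM2 (by positivity)
    have halt := I.circle_alt s aR uR ha h8 hrd ρ
    refine ⟨?_, ?_⟩
    · intro hgP z hz
      obtain ⟨X, hX⟩ := (I.frozenPositive_iff v hv (fun i : Fin I.k => l i) (fun i => c i)
        (fun i => ex i) (fun i => hrd.1 i i.2) (I.all' aR uR ha hu v hv hrd)).1 hfp
      rcases halt with hsim | hcard
      · obtain ⟨E', hE'⟩ := early I.k
        obtain ⟨x', hx'⟩ : ∃ x' : ℝ, 2 ^ ((2 + L) ^ E') < x' := exists_gt _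
        have hk : ({z | z ∈ Set.range (fun i : Fin I.k => l i) ∧ ‖z‖ = ρ}).ncard ≤ I.k := by
          have h1 : ({z | z ∈ Set.range (fun i : Fin I.k => l i) ∧ ‖z‖ = ρ}).ncard ≤
              (Set.range (fun i : Fin I.k => l i)).ncard :=
            Set.ncard_le_ncard (fun z hz => hz.1) (Set.finite_range _)
          refine h1.trans ?_
          have h2 : (Set.range (fun i : Fin I.k => l i)).ncard ≤
              (Set.univ : Set (Fin I.k)).ncard := by
            rw [← Set.image_univ]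
            exact Set.ncard_image_le (Set.finite_univ)
          rwa [Set.ncard_univ, Nat.card_eq_fintype_card, Fintype.card_fin] at h2
        rw [levX_const _ _ _ A s' j ρ hsim x x' z]
        exact hE' I.k L hkL I.num (fun t => if h : t < I.k then I.uNum ⟨t, h⟩ else 0) I.den
          (fun t => if h : t < I.k then I.uDen ⟨t, h⟩ else 1) I.den_pos' hdenu0
          (I.num_le' L hb) (I.den_le' L hb) hnumu hdenu aR uR hA hU l c ex hrd (2 ^ pr L) M Nb
          (2 / ((2 ^ pq L : ℕ) : ℝ)) (1 / 2 ^ pdl L) (fun n => ((v n : ℚ) : ℝ)) hg n0 j hn0 hj ρ hρ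
          hk (X : ℝ)
          (fun y hy m => orbit_nonneg (fun i : Fin I.k => l i) (fun i => c i) (fun i => ex i)
            hgood.hk (fun i => hrd.1 i i.2) (fun n => ((v n : ℚ) : ℝ))
            (I.all' aR uR ha hu v hv hrd) X hX n0 j hn0 hj ρ hρ hgP y hy m)
          A H D s' w τ d hbase x' hx' z hz
      · exact hE1 I.k L hkL I.num (fun t => if h : t < I.k then I.uNum ⟨t, h⟩ else 0) I.den
          (fun t => if h : t < I.k then I.uDen ⟨t, h⟩ else 1) I.den_pos' hdenu0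
          (I.num_le' L hb) (I.den_le' L hb) hnumu hdenu aR uR hA hU l c ex hrd (2 ^ pr L) M Nb
          (2 / ((2 ^ pq L : ℕ) : ℝ)) (1 / 2 ^ pdl L) (fun n => ((v n : ℚ) : ℝ)) hg n0 j hn0 hj ρ hρ
          hcard (X : ℝ)
          (fun y hy m => orbit_nonneg (fun i : Fin I.k => l i) (fun i => c i) (fun i => ex i)
            hgood.hk (fun i => hrd.1 i i.2) (fun n => ((v n : ℚ) : ℝ))
            (I.all' aR uR ha hu v hv hrd) X hX n0 j hn0 hj ρ hρ hgP y hy m)
          A H D s' w τ d hbase x hx1 z hz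
    · intro y hrep
      refine ⟨?_, ?_⟩
      · intro hne z hz
        rcases halt with hsim | hcard
        · obtain ⟨t, _, ht⟩ := hne 0
          rw [levX_const _ _ _ A s' j ρ hsim x t z]
          exact ht z hz
        · exact hE3 I.k L hkL I.num (fun t => if h : t < I.k then I.uNum ⟨t, h⟩ else 0) I.den
            (fun t => if h : t < I.k then I.uDen ⟨t, h⟩ else 1) I.den_pos' hdenu0
            (I.num_le' L hb) (I.den_le' L hb) hnumu hdenu aR uR hA hU l c ex hrd (2 ^ pr L) M Nb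
            (2 / ((2 ^ pq L : ℕ) : ℝ)) (1 / 2 ^ pdl L) (fun n => ((v n : ℚ) : ℝ)) hg n0 j hn0 hj
            ρ hρ hcard A H D s' w τ y d hrep hbase hne x hx3 z hz
      · intro i1 i2 hi1 hi2 hfin z z' hz hz0 hz' hz0' hzz
        rcases halt with hsim | hcard
        · obtain ⟨x0, _, hfin0⟩ := hfin 0
          have h1 := hE5 I.k L hkL I.num (fun t => if h : t < I.k then I.uNum ⟨t, h⟩ else 0) I.den
            (fun t => if h : t < I.k then I.uDen ⟨t, h⟩ else 1) I.den_pos' hdenu0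
            (I.num_le' L hb) (I.den_le' L hb) hnumu hdenu aR uR hA hU l c ex hrd (2 ^ pr L) M Nb
            (2 / ((2 ^ pq L : ℕ) : ℝ)) (1 / 2 ^ pdl L) (fun n => ((v n : ℚ) : ℝ)) hg hM1 hM2 hNb
            n0 j hj ρ hρ A H D s' w τ d hbase i1 i2 hsim x0 hfin0
            x hx02 z z' hz hz0 hz' hz0' hzz
          refine h1.trans (mul_le_mul_of_nonneg_right ?_ (norm_nonneg _))
          exact pow_le_pow_right₀ hx0 (Nat.pow_le_pow_right (by omega)
            (Nat.pow_le_pow_right (by omega) (by omega)))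
        · have h1 := hE4 I.k L hkL I.num (fun t => if h : t < I.k then I.uNum ⟨t, h⟩ else 0) I.den
            (fun t => if h : t < I.k then I.uDen ⟨t, h⟩ else 1) I.den_pos' hdenu0
            (I.num_le' L hb) (I.den_le' L hb) hnumu hdenu aR uR hA hU l c ex hrd (2 ^ pr L) M Nb
            (2 / ((2 ^ pq L : ℕ) : ℝ)) (1 / 2 ^ pdl L) (fun n => ((v n : ℚ) : ℝ)) hg n0 j hn0 hj
            ρ hρ hcard A H D s' w τ y d hrep hbase i1 i2 hi1 hi2 hfin
            x hx4 z z' hz hz0 hz' hz0' hzz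
          refine h1.trans (mul_le_mul_of_nonneg_right ?_ (norm_nonneg _))
          refine pow_le_pow_right₀ hx0 ?_
          exact (Nat.lt_two_pow_self).le.trans (Nat.pow_le_pow_right (by omega)
            (Nat.pow_le_pow_right (by omega) (by omega)))

end Pool.Agent.UltPos
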